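import Pool.Agent.TH826.UM.Scale
set_option autoImplicit false

/-!
Smoothness of the hypersurfaces `λ ∏_k ∏_i (x_k - a_{k,i}) = 1`: critical values.
-/

namespace Pool.Agent.Run7.h363.BD

open Polynomial

open Pool.Agent.TH826.MH

open Pool.Agent.TH826.UM (eval_qq deriv_qq)

/-- If the mutual distances of the roots are at least `δ`, then the critical points have distance at
least `δ / deg` from the roots, and the critical values are not small if two roots are far from each
other. -/
theorem crit_ge {m : ℕ} (β : Fin (m + 1) → ℂ) {δ : ℝ} (hδ : 0 < δ)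
    (hβ : ∀ i j, i ≠ j → δ ≤ ‖β i - β j‖) (x0 y0 : Fin (m + 1)) (c : ℂ)
    (hc : (derivative (qq β)).eval c = 0) :
    (δ / (m + 1)) ^ m * (‖β x0 - β y0‖ / 2) ≤ ‖(qq β).eval c‖ := by
  classical
  rw [deriv_qq] at hc
  have hne : ∀ i, c - β i ≠ 0 := by
    intro i hi
    have h1 : ∑ i', ∏ j ∈ Finset.univ.erase i', (c - β j) =
        ∏ j ∈ Finset.univ.erase i, (c - β j) := by
      refine Finset.sum_eq_single i (fun i' _ h => ?_) fun h => absurd (Finset.mem_univ i) h
      exact Finset.prod_eq_zero (Finset.mem_erase.2 ⟨h.symm, Finset.mem_univ i⟩) hi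
    rw [h1] at hc
    obtain ⟨j, hj, hj0⟩ := Finset.prod_eq_zero_iff.1 hc
    have h2 := hβ i j (Finset.ne_of_mem_erase hj).symm
    have h3 : β i - β j = 0 := by linear_combination hj0 - hi
    rw [h3, norm_zero] at h2
    linarith
  obtain ⟨i0, -, hmin⟩ := Finset.exists_min_image Finset.univ (fun i => ‖c - β i‖)
    ⟨0, Finset.mem_univ _⟩
  set t : ℝ := ‖c - β i0‖ with ht
  have ht0 : 0 < t := norm_pos_iff.2 (hne i0)
  have hm1 : (0 : ℝ) < m + 1 := by positivity
  have hmt : δ / (m + 1) ≤ t := by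
    by_contra hlt
    push Not at hlt
    have hδt : δ / (m + 1) ≤ δ := div_le_self hδ.le (by
      have : (0 : ℝ) ≤ m := Nat.cast_nonneg m
      linarith)
    have h4 : 0 < δ - t := by linarith
    have hfar : ∀ i, i ≠ i0 → δ - t ≤ ‖c - β i‖ := by
      intro i hi
      have h2 := hβ i i0 hi
      have h3 : ‖β i - β i0‖ ≤ ‖c - β i0‖ + ‖c - β i‖ := by
        have : β i - β i0 = (c - β i0) - (c - β i) := by ring
        rw [this]
        exact norm_sub_le _ _
      linarith
    have hinv : ∑ i, (c - β i)⁻¹ = 0 := by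
      have hP : ∏ i, (c - β i) ≠ 0 := Finset.prod_ne_zero_iff.2 fun i _ => hne i
      have h2 : (∏ i, (c - β i)) * ∑ i, (c - β i)⁻¹ = 0 := by
        rw [← hc, Finset.mul_sum]
        refine Finset.sum_congr rfl fun i _ => ?_
        rw [← Finset.mul_prod_erase _ _ (Finset.mem_univ i)]
        have := hne i
        field_simp
      exact (mul_eq_zero.1 h2).resolve_left hP
    have h2 : t⁻¹ ≤ m * (δ - t)⁻¹ := by
      rw [← Finset.add_sum_erase _ _ (Finset.mem_univ i0)] at hinv
      have h3 : (c - β i0)⁻¹ = -∑ i ∈ Finset.univ.erase i0, (c - β i)⁻¹ := by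
        linear_combination hinv
      have h4 := congrArg norm h3
      rw [norm_inv, norm_neg, ← ht] at h4
      rw [h4]
      refine (norm_sum_le _ _).trans ?_
      calc ∑ i ∈ Finset.univ.erase i0, ‖(c - β i)⁻¹‖ ≤
            ∑ _i ∈ Finset.univ.erase i0, (δ - t)⁻¹ := by
            refine Finset.sum_le_sum fun i hi => ?_
            rw [norm_inv]
            exact inv_anti₀ (by linarith) (hfar i (Finset.ne_of_mem_erase hi))
        _ = m * (δ - t)⁻¹ := by
            rw [Finset.sum_const, Finset.card_erase_of_mem (Finset.mem_univ i0), Finset.card_univ,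
              Fintype.card_fin, nsmul_eq_mul, Nat.add_sub_cancel]
    have h3 : δ - t ≤ m * t := by
      have h5 := mul_le_mul_of_nonneg_right h2 (mul_pos ht0 h4).le
      have e1 : t⁻¹ * (t * (δ - t)) = δ - t := by field_simp
      have e2 : m * (δ - t)⁻¹ * (t * (δ - t)) = m * t := by field_simp
      linarith
    rw [lt_div_iff₀ hm1] at hlt
    nlinarith
  rw [eval_qq, norm_prod]
  have key : ∀ j, ‖β x0 - β y0‖ / 2 ≤ ‖c - β j‖ →
      (δ / (m + 1)) ^ m * (‖β x0 - β y0‖ / 2) ≤ ∏ i, ‖c - β i‖ := by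
    intro j hj
    rw [← Finset.mul_prod_erase _ _ (Finset.mem_univ j), mul_comm]
    refine mul_le_mul hj ?_ (by positivity) (norm_nonneg _)
    calc (δ / (m + 1)) ^ m = ∏ _i ∈ Finset.univ.erase j, (δ / (m + 1)) := by
          rw [Finset.prod_const, Finset.card_erase_of_mem (Finset.mem_univ j), Finset.card_univ,
            Fintype.card_fin, Nat.add_sub_cancel]
      _ ≤ ∏ i ∈ Finset.univ.erase j, ‖c - β i‖ :=
          Finset.prod_le_prod (fun _ _ => by positivity) fun i _ =>
            hmt.trans (hmin i (Finset.mem_univ i))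
  have h1 : ‖β x0 - β y0‖ ≤ ‖c - β x0‖ + ‖c - β y0‖ := by
    have : β x0 - β y0 = (c - β y0) - (c - β x0) := by ring
    rw [this]
    refine (norm_sub_le _ _).trans ?_
    rw [add_comm]
  rcases le_total ‖c - β x0‖ ‖c - β y0‖ with h | h
  · exact key y0 (by linarith)
  · exact key x0 (by linarith)

variable {K : Type*} [Field K] {n : ℕ} {r : Fin n → ℕ}

/-- smoothness if all critical values have absolute value larger than `1` -/
theorem smooth_of_crit (hn : 0 < n) (σ : K →+* ℂ) (a : ∀ k, Fin (r k + 1) → K) {v : Fin n → ℝ}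
    (hv0 : ∀ k, 0 ≤ v k)
    (hv : ∀ k c, (derivative (qq fun i => σ (a k i))).eval c = 0 →
      v k ≤ ‖(qq fun i => σ (a k i)).eval c‖) {lam : K} (hlam : 1 < ‖σ lam‖ * ∏ k, v k)
    (x : Fin n → ℂ) (hx : MvPolynomial.eval₂ σ x (eqn lam a) = 0) :
    ∃ k, MvPolynomial.eval₂ σ x (MvPolynomial.pderiv k (eqn lam a)) ≠ 0 := by
  have hmap : ∀ k, (qq (a k)).map σ = qq fun i => σ (a k i) := by
    intro k
    unfold qq
    rw [Polynomial.map_prod]
    refine Finset.prod_congr rfl fun i _ => ?_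
    rw [Polynomial.map_sub, map_X, map_C]
  have h1 : σ lam * ∏ k, (qq (a k)).eval₂ σ (x k) = 1 := by
    rw [eqn_eq lam a ⟨0, hn⟩, MvPolynomial.eval₂_sub, MvPolynomial.eval₂_mul,
      MvPolynomial.eval₂_mul, MvPolynomial.eval₂_C, MvPolynomial.eval₂_one, eval_aeval,
      MvPolynomial.eval₂_prod] at hx
    rw [← Finset.mul_prod_erase _ _ (Finset.mem_univ (⟨0, hn⟩ : Fin n))]
    simp only [eval_aeval] at hx
    linear_combination hx
  by_contra hcon
  push Not at hcon
  have hcrit : ∀ k, (derivative (qq (a k))).eval₂ σ (x k) = 0 := by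
    intro k
    have h2 := hcon k
    rw [pderiv_eqn, MvPolynomial.eval₂_mul, MvPolynomial.eval₂_mul, MvPolynomial.eval₂_C,
      eval_aeval, MvPolynomial.eval₂_prod] at h2
    simp only [eval_aeval] at h2
    have h3 : σ lam ≠ 0 ∧ ∏ k, (qq (a k)).eval₂ σ (x k) ≠ 0 := by
      rw [← mul_ne_zero_iff, h1]
      exact one_ne_zero
    have h4 : ∏ l ∈ Finset.univ.erase k, (qq (a l)).eval₂ σ (x l) ≠ 0 :=
      Finset.prod_ne_zero_iff.2 fun l _ => (Finset.prod_ne_zero_iff.1 h3.2) l (Finset.mem_univ l)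
    rcases mul_eq_zero.1 h2 with h5 | h5
    · exact absurd h5 h3.1
    · rcases mul_eq_zero.1 h5 with h6 | h6
      · exact h6
      · exact absurd h6 h4
  have hge : ∀ k, v k ≤ ‖(qq (a k)).eval₂ σ (x k)‖ := by
    intro k
    rw [← eval_map, hmap]
    refine hv k (x k) ?_
    rw [← hmap, derivative_map, eval_map]
    exact hcrit k
  have h5 : ∏ k, v k ≤ ‖∏ k, (qq (a k)).eval₂ σ (x k)‖ := by
    rw [norm_prod]
    exact Finset.prod_le_prod (fun k _ => hv0 k) fun k _ => hge k
  have h6 := congrArg norm h1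
  rw [norm_mul, norm_one] at h6
  have h7 := mul_le_mul_of_nonneg_left h5 (norm_nonneg (σ lam))
  linarith

end Pool.Agent.Run7.h363.BD
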