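import Pool.Agent.Run7.h363.BD.Main
set_option autoImplicit false

/-!
The tori on the hypersurface `λ ∏_k ∏_i (x_k - a_{k,i}) = 1` and the regulator matrix.
-/

namespace Pool.Agent.Run7.h363.BD

open Pool.Agent.TH826.MK

open Pool.Agent.TH826.MH (CRing fpol ent ux mkT mkT_ux evX_fpol good_w)

open Pool.Agent.TH826.UM (ff FF ww RR norm_ff_self one_ff norm_ld_ff good_FF per_ww pairing_ww
  abs_pairing_log_le pair_expand)

open Pool.Agent.TH826

/-- the inequality for the Laplacian of separated points -/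
theorem LL_pos {n : ℕ} {β : Fin (n + 1) → ℂ} (hβ : ∀ i j, i ≠ j → 3 ≤ ‖β i - β j‖)
    {x0 y0 : Fin (n + 1)} (hne : x0 ≠ y0) (v : Fin (n + 1) → ℝ) (hv : ∑ x, v x = 0) :
    (((n : ℝ) + 1) * Real.log 3 + max 0 (Real.log (‖β x0 - β y0‖ / 6)) /
      (4 * ((n : ℝ) + 1) + 4)) * ∑ x, v x ^ 2 ≤ ∑ x, ∑ y, v x * (LL β x y * v y) := by
  have h := lap_one (fun i x => Real.log ‖β i - β x‖) (fun x y => by rw [norm_sub_rev])
    (a := Real.log 3) (W := max 0 (Real.log (‖β x0 - β y0‖ / 6))) (le_max_left _ _) x0 y0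
    (cc β x0 y0) (cc_or x0 y0) (cc_zero hβ hne)
    (fun x y hxy => Real.log_le_log (by norm_num) (hβ x y hxy)) (cc_log hβ hne) v hv
  push_cast at h
  exact h

theorem main_eq {d : ℕ} {r : Fin (d + 1) → ℕ} {β : ∀ k : Fin (d + 1), Fin (r k + 1) → ℂ} {μ : ℂ}
    (hβ : ∀ k i j, i ≠ j → 3 ≤ ‖β k i - β k j‖) (hμ : μ ≠ 0) (p q : ∀ k, Fin (r k + 1)) :
    (if p 0 = q 0 then -pairing (Fin.cons (ww μ (fun k => β k.succ) fun k => q k.succ)
        (vf fun k => ff (fun k => β k.succ) (fun k => q k.succ) k (p k.succ))) else 0) +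
      (2 * Real.pi) ^ d * ((∏ k : Fin d, if p k.succ = q k.succ then (1 : ℝ) else 0) *
        LL (β 0) (p 0) (q 0)) =
    (2 * Real.pi) ^ d * (Real.log ‖μ‖ * (∏ k, if p k = q k then (1 : ℝ) else 0) +
      ∑ k, (∏ l ∈ Finset.univ.erase k, if p l = q l then (1 : ℝ) else 0) *
        LL (β k) (p k) (q k)) := by
  have h1 : (if p 0 = q 0 then -pairing (Fin.cons (ww μ (fun k => β k.succ) fun k => q k.succ)
        (vf fun k => ff (fun k => β k.succ) (fun k => q k.succ) k (p k.succ))) else 0) =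
      (if p 0 = q 0 then (1 : ℝ) else 0) *
        -pairing (Fin.cons (ww μ (fun k => β k.succ) fun k => q k.succ)
        (vf fun k => ff (fun k => β k.succ) (fun k => q k.succ) k (p k.succ))) := by
    split_ifs <;> simp
  rw [h1, pairing_ww (fun k => hβ k.succ) hμ, Fin.prod_univ_succ, Fin.sum_univ_succ,
    prod_erase_zero]
  have h2 : ∀ k : Fin d, (∏ l ∈ Finset.univ.erase k.succ, if p l = q l then (1 : ℝ) else 0) *
      LL (β k.succ) (p k.succ) (q k.succ) = (if p 0 = q 0 then (1 : ℝ) else 0) *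
      ((∏ l ∈ Finset.univ.erase k, if p l.succ = q l.succ then (1 : ℝ) else 0) *
        ((if p k.succ = q k.succ then ∑ i, Real.log ‖β k.succ i - β k.succ (p k.succ)‖ else 0) -
            Real.log ‖β k.succ (q k.succ) - β k.succ (p k.succ)‖)) := by
    intro k
    rw [prod_erase_succ]
    unfold LL
    ring
  simp only [h2]
  rw [← Finset.mul_sum]
  ring

/-- tori on the hypersurface -/
theorem exists_tori {K : Type*} [Field K] {σ : K →+* ℂ} {lam : K} {d : ℕ} (hd : 0 < d)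
    {r : Fin (d + 1) → ℕ} {a : ∀ k, Fin (r k + 1) → K}
    (hsep : ∀ k i j, i ≠ j → 3 ≤ ‖σ (a k i) - σ (a k j)‖) (x0 y0 : ∀ k, Fin (r k + 1))
    (hne : ∀ k, x0 k ≠ y0 k) {η : ℝ} (hη2 : 2 ≤ η)
    (hη : η ≤ ‖σ lam‖ * ∏ k, (‖σ (a k (x0 k)) - σ (a k (y0 k))‖ / 3))
    (hΛ : (∏ k, ((r k : ℝ) + 1)) * (((r 0 : ℝ) + 1) / (2 * η)) < Real.log ‖σ lam‖ +
      ∑ k, (((r k : ℝ) + 1) * Real.log 3 + max 0 (Real.log
        (‖σ (a k (x0 k)) - σ (a k (y0 k))‖ / 6)) / (4 * ((r k : ℝ) + 1) + 4))) :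
    ∃ Γ : (∀ k, Fin (r k)) → Torus (CRing lam a) d,
      (∀ t θ (x : K), (Γ t).e θ (fpol lam a (MvPolynomial.C x)) = σ x) ∧
      (Matrix.of fun t i : (∀ k, Fin (r k)) => (Γ t).reg (symb (ent lam a i))).det ≠ 0 := by
  classical
  have hpi := Real.pi_pos
  set β' : ∀ k : Fin (d + 1), Fin (r k + 1) → ℂ := fun k i => σ (a k i) with hβ'
  set β0 : Fin (r 0 + 1) → ℂ := fun i => σ (a 0 i) with hβ0d
  set β : ∀ k : Fin d, Fin (r k.succ + 1) → ℂ := fun k i => σ (a k.succ i) with hβd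
  have hβ0 : ∀ i j, i ≠ j → 3 ≤ ‖β0 i - β0 j‖ := hsep 0
  have hβ : ∀ k i j, i ≠ j → 3 ≤ ‖β k i - β k j‖ := fun k => hsep k.succ
  have hDpos : ∀ k, 0 < ‖σ (a k (x0 k)) - σ (a k (y0 k))‖ / 3 := fun k => by
    have := hsep k _ _ (hne k)
    linarith
  have hlam0 : σ lam ≠ 0 := by
    intro h
    rw [h, norm_zero, zero_mul] at hη
    linarith
  set B0 : ℝ := ‖σ (a 0 (x0 0)) - σ (a 0 (y0 0))‖ / 3 with hB0d
  set B : Fin d → ℝ := fun k => ‖σ (a k.succ (x0 k.succ)) - σ (a k.succ (y0 k.succ))‖ / 3 with hBd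
  have hB00 : 0 < B0 := hDpos 0
  have hB0 : ∀ k, 0 < B k := fun k => hDpos k.succ
  have hB : ∀ k, Low (β k) (B k) := fun k l x hx =>
    prod_erase_ge (hsep k.succ) (hne k.succ) l x hx
  rw [Fin.prod_univ_succ] at hη
  obtain ⟨G, hG1, hG2, hG3, hG4⟩ := exists_G hβ0 hB00
    (fun x hx => prod_ge (hne 0) x hx) (fun l x hx => prod_erase_ge hβ0 (hne 0) l x hx)
  have hηpos : 0 < η := by linarith
  have hw : ∀ q θ, ‖ww (σ lam) β q θ‖ ≤ B0 / 2 := fun q θ =>
    (norm_ww_le hB0 hB hlam0 hη hηpos q θ).trans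
      (div_le_div_of_nonneg_left hB00.le (by norm_num) hη2)
  have gw : ∀ q, Good (ww (σ lam) β q) := fun q => good_w (good_FF hβ q) hlam0
  set X : (∀ k, Fin (r k + 1)) → (Fin d → ℝ) → (Fin (d + 1) → ℂ) := fun q θ =>
    Fin.cons (G (q 0) (ww (σ lam) β (fun k => q k.succ) θ))
      (fun k => circ 1 (θ k) + β k (q k.succ)) with hX
  have hX0 : ∀ q θ, X q θ 0 = G (q 0) (ww (σ lam) β (fun k => q k.succ) θ) := fun q θ => rfl
  have hXs : ∀ q θ (k : Fin d), X q θ k.succ = circ 1 (θ k) + β k (q k.succ) :=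
    fun q θ k => rfl
  have hXc : ∀ q, ContDiff ℝ 2 (X q) := by
    intro q
    refine contDiff_pi.2 fun k => ?_
    refine Fin.cases ?_ (fun k => ?_) k
    · simp only [hX0]
      rw [contDiff_iff_contDiffAt]
      intro θ
      exact ((hG1 _ _ (hw _ θ)).contDiffAt.restrict_scalars ℝ).comp θ
        (gw _).smooth.contDiffAt
    · simp only [hXs]
      exact ((contDiff_circ 1).comp (contDiff_apply ℝ ℝ k)).add contDiff_const
  have hXp : ∀ q θ i, X q (θ + Pi.single i 1) = X q θ := by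
    intro q θ i
    funext k
    refine Fin.cases ?_ (fun k => ?_) k
    · rw [hX0, hX0, per_ww hβ _ θ i]
    · rw [hXs, hXs]
      congr 1
      exact congrFun (tpt_add_single (fun _ => 1) θ i) k
  have hXf : ∀ q θ (k : Fin d) i, X q θ k.succ - σ (a k.succ i) =
      ff β (fun k => q k.succ) k i (θ k) := by
    intro q θ k i
    rw [hXs]
    unfold ff
    simp only [hβd]
    ring
  have hXx : ∀ q θ, σ lam * ∏ k, ∏ i, (X q θ k - σ (a k i)) = 1 := by
    intro q θ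
    rw [Fin.prod_univ_succ]
    have h1 : ∏ i, (X q θ 0 - σ (a 0 i)) = ww (σ lam) β (fun k => q k.succ) θ :=
      hG2 _ _ (hw _ θ)
    have h2 : ∏ k : Fin d, ∏ i, (X q θ k.succ - σ (a k.succ i)) =
        FF β (fun k => q k.succ) θ := by
      unfold FF
      exact Finset.prod_congr rfl fun k _ => Finset.prod_congr rfl fun i _ => hXf q θ k i
    rw [h1, h2]
    unfold ww
    have h3 := (good_FF hβ (fun k => q k.succ)).ne_zero θ
    field_simp
  set Γ' : (∀ k, Fin (r k + 1)) → Torus (CRing lam a) d := fun q =>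
    mkT (X q) (hXc q) (hXp q) (hXx q) with hΓ'
  set W : Matrix (∀ k, Fin (r k + 1)) (∀ k, Fin (r k + 1)) ℝ :=
    Matrix.of fun p q => (Γ' q).pair fun k => ux lam a k (p k) with hW
  set R : Matrix (∀ k, Fin (r k + 1)) (∀ k, Fin (r k + 1)) ℝ :=
    Matrix.of fun p q => RR β0 β (σ lam) G (p 0, fun k => p k.succ) (q 0, fun k => q k.succ)
    with hR
  have hWR : ∀ p q, W p q = -R p q := by
    intro p q
    rw [hW, hR, Matrix.of_apply, Matrix.of_apply]
    unfold RR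
    rw [neg_neg]
    unfold Torus.pair
    congr 1
    funext k θ
    rw [hΓ', mkT_ux]
    refine Fin.cases ?_ (fun k => ?_) k
    · rfl
    · exact hXf q θ k (p k.succ)
  -- the main term
  set b : Fin (d + 1) → ℝ := fun k => ((r k : ℝ) + 1) * Real.log 3 + max 0 (Real.log
        (‖σ (a k (x0 k)) - σ (a k (y0 k))‖ / 6)) / (4 * ((r k : ℝ) + 1) + 4) with hb
  set S : (∀ k, Fin (r k + 1)) → (∀ k, Fin (r k + 1)) → ℝ := fun p q =>
    (2 * Real.pi) ^ d * (Real.log ‖σ lam‖ * (∏ k, if p k = q k then (1 : ℝ) else 0) +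
      ∑ k, (∏ l ∈ Finset.univ.erase k, if p l = q l then (1 : ℝ) else 0) *
        LL (β' k) (p k) (q k)) with hS
  have hSpos : ∀ u : (∀ k, Fin (r k + 1)) → ℝ, (∀ k p, ∑ x, u (Function.update p k x) = 0) →
      ((2 * Real.pi) ^ d * (Real.log ‖σ lam‖ + ∑ k, b k)) * ∑ p, u p ^ 2 ≤
        ∑ p, ∑ q, u p * (S p q * u q) := by
    intro u hu
    have h1 := kron_sum (fun k => LL (β' k)) b (Real.log ‖σ lam‖)
      (fun k v hv => LL_pos (hsep k) (hne k) v hv) u hu
    have h2 := mul_le_mul_of_nonneg_left h1 (by positivity : 0 ≤ (2 * Real.pi) ^ d)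
    rw [mul_assoc]
    refine h2.trans (le_of_eq ?_)
    rw [Finset.mul_sum]
    refine Finset.sum_congr rfl fun p _ => ?_
    rw [Finset.mul_sum]
    refine Finset.sum_congr rfl fun q _ => ?_
    rw [hS]
    ring
  have hnear : ∀ p q, |R p q - S p q| ≤
      ((r 0 : ℝ) + 1) * ((2 * Real.pi) ^ d / (2 * η)) := by
    intro p q
    have h1 := near_main (G := G) hd hβ0 hβ hB0 hB hB00 hlam0 hη hη2 hG1 hG2 hG4 (p 0) (q 0)
      (fun k => p k.succ) (fun k => q k.succ)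
    have h2 := main_eq (β := β') (μ := σ lam) hsep hlam0 p q
    have h3 : S p q = _ := h2.symm
    rw [h3]
    exact h1
  obtain ⟨f, hf⟩ := exists_columns_of_pos R S hSpos hnear (by
    rw [Fintype.card_pi]
    simp only [Fintype.card_fin]
    push_cast
    have h1 : (∏ k, ((r k : ℝ) + 1)) * (((r 0 : ℝ) + 1) * ((2 * Real.pi) ^ d / (2 * η))) =
        (2 * Real.pi) ^ d * ((∏ k, ((r k : ℝ) + 1)) * (((r 0 : ℝ) + 1) / (2 * η))) := by
      ring
    rw [h1]
    exact mul_lt_mul_of_pos_left hΛ (by positivity))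
  refine ⟨fun t => Γ' (f t), fun t θ x => ?_, ?_⟩
  · show MH.evX (hXx (f t) θ) (fpol lam a (MvPolynomial.C x)) = σ x
    rw [evX_fpol]
    simp
  · have hM : (Matrix.of fun t i : (∀ k, Fin (r k)) =>
        (Γ' (f t)).reg (symb (ent lam a i))) = -Matrix.of fun t i : (∀ k, Fin (r k)) =>
        ∑ p, (∏ k, UB.dd (i k) (p k)) * R p (f t) := by
      ext t i
      rw [Matrix.neg_apply, Matrix.of_apply, Matrix.of_apply, Torus.reg_symb]
      have h1 := pair_expand (Γ' (f t)) (fun k => ux lam a k) i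
      refine h1.trans ?_
      rw [← Finset.sum_neg_distrib]
      refine Finset.sum_congr rfl fun p _ => ?_
      have h2 : (Γ' (f t)).pair (fun k => ux lam a k (p k)) = W p (f t) := rfl
      rw [h2, hWR]
      ring
    rw [hM, Matrix.det_neg]
    exact mul_ne_zero (pow_ne_zero _ (by norm_num)) hf

end Pool.Agent.Run7.h363.BD
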