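import Pool.Agent.TH826.UM.FB
import Pool.Agent.Run7.h363.BD.Tori
set_option autoImplicit false

/-!
The regulator matrix of the fibrations `z + y_1 + ... + y_q + 1/(z ∏ y_i ^ (w_i + 1)) = Φ(x)`,
`Φ = μ ∏_k ∏_i (x_k - β_{k,i})`, in terms of the Laplacians of the complete graphs with the weights
`log |β_{k,i} - β_{k,j}|`.
-/

namespace Pool.Agent.Run7.h363.BD

open MeasureTheory Set

open Pool.Agent.TH826.MK

open Pool.Agent.TH690.SF (se he he_eq good_he_comp slit_e norm_four_mul)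

open Pool.Agent.TH826.UM (ff FF ww norm_ff_self one_ff norm_ld_ff good_FF per_ww pairing_ww
  abs_pairing_log_le VV vv one_VV norm_ld_VV PhT good_PhT per_PhT pairing_PhT norm_he_sub_one
  yT kT PsT etT zT norm_yT good_yT per_yT norm_sum_yT per_kT per_PsT per_etT per_zT)

variable {n q : ℕ} {s : Fin n → ℕ} {β : ∀ k : Fin n, Fin (s k + 1) → ℂ} {μ : ℂ}
  {B : Fin n → ℝ} {P : ℝ} {w : Fin q → ℕ}

theorem norm_PhT_ge' (hB0 : ∀ k, 0 < B k) (hB : ∀ k, Low (β k) (B k))
    (hP : P ≤ ‖μ‖ * ∏ k, B k) (t : ∀ k, Fin (s k + 1)) (θ : Fin (n + q) → ℝ) :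
    P ≤ ‖PhT q μ β t θ‖ := by
  have h1 := norm_FF_ge hB0 hB t fun k => θ (Fin.castAdd q k)
  have h2 : PhT q μ β t θ = μ * FF β t fun k => θ (Fin.castAdd q k) := rfl
  rw [h2, norm_mul]
  exact hP.trans (mul_le_mul_of_nonneg_left h1 (norm_nonneg _))

section bounds

variable (hβ : ∀ k i j, i ≠ j → 3 ≤ ‖β k i - β k j‖) (hμ : μ ≠ 0)
  (hPh : ∀ t (θ : Fin (n + q) → ℝ), P ≤ ‖PhT q μ β t θ‖) (hP2 : 4 + 2 * (q : ℝ) ≤ P)

include hPh hP2 in
theorem norm_kT_le (t : ∀ k, Fin (s k + 1)) (θ : Fin (n + q) → ℝ) :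
    ‖kT q μ β t θ‖ ≤ q / P := by
  have hq : (0 : ℝ) ≤ q := Nat.cast_nonneg q
  unfold kT
  rw [norm_mul, norm_inv, ← div_eq_mul_inv]
  exact div_le_div₀ hq (norm_sum_yT θ) (by linarith) (hPh t θ)

include hPh hP2 in
theorem norm_kT_le_half (t : ∀ k, Fin (s k + 1)) (θ : Fin (n + q) → ℝ) :
    ‖kT q μ β t θ‖ ≤ 1 / 2 := by
  have hq : (0 : ℝ) ≤ q := Nat.cast_nonneg q
  refine (norm_kT_le hPh hP2 t θ).trans ?_
  rw [div_le_iff₀ (by linarith)]
  linarith

include hPh hP2 in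
theorem slit_kT (t : ∀ k, Fin (s k + 1)) (θ : Fin (n + q) → ℝ) :
    1 - kT q μ β t θ ∈ Complex.slitPlane := by
  rw [sub_eq_add_neg]
  refine Complex.mem_slitPlane_of_norm_lt_one ?_
  rw [norm_neg]
  have := norm_kT_le_half hPh hP2 t θ
  linarith

include hβ hμ hPh hP2 in
theorem good_kT (t : ∀ k, Fin (s k + 1)) :
    Good fun θ : Fin (n + q) → ℝ => 1 - kT q μ β t θ := by
  have g := good_PhT (q := q) hβ hμ t
  refine ⟨contDiff_const.sub ((ContDiff.sum fun i _ => (good_yT (n := n) i).smooth).mul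
    (g.smooth.inv g.ne_zero)), fun θ => Complex.slitPlane_ne_zero (slit_kT hPh hP2 t θ)⟩

include hβ hμ hPh hP2 in
theorem good_PsT (t : ∀ k, Fin (s k + 1)) : Good (PsT q μ β t) :=
  (good_PhT hβ hμ t).mul (good_kT hβ hμ hPh hP2 t)

include hβ hμ hPh in
theorem norm_PsT_ge (t : ∀ k, Fin (s k + 1)) (θ : Fin (n + q) → ℝ) :
    P - q ≤ ‖PsT q μ β t θ‖ := by
  have h0 := (good_PhT (q := q) hβ hμ t).ne_zero θ
  have h1 : PsT q μ β t θ = PhT q μ β t θ - ∑ i, yT n θ i := by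
    unfold PsT kT
    field_simp
  have h2 := hPh t θ
  have h3 := norm_sub_norm_le (PhT q μ β t θ) (∑ i, yT n θ i)
  have h4 := norm_sum_yT θ
  rw [h1]
  linarith

include hβ hμ hPh hP2 in
theorem good_etT (t : ∀ k, Fin (s k + 1)) : Good (etT w μ β t) := by
  have g := (good_prod Finset.univ fun i =>
    Pool.Agent.TH690.SF.good_pow (good_yT (n := n) i) (w i + 1)).mul
    ((good_PsT hβ hμ hPh hP2 t).mul (good_PsT hβ hμ hPh hP2 t))
  exact ⟨g.smooth.inv g.ne_zero, fun θ => inv_ne_zero (g.ne_zero θ)⟩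

include hβ hμ hPh hP2 in
theorem norm_etT_le (t : ∀ k, Fin (s k + 1)) (θ : Fin (n + q) → ℝ) :
    ‖etT w μ β t θ‖ ≤ 1 / 16 := by
  have hq : (0 : ℝ) ≤ q := Nat.cast_nonneg q
  have h2 := norm_PsT_ge (q := q) hβ hμ hPh t θ
  have hP0 : 4 ≤ P - q := by linarith
  unfold etT
  rw [norm_inv, norm_mul, norm_mul, norm_prod]
  simp only [norm_pow, norm_yT, one_pow, Finset.prod_const_one, one_mul]
  have h3 : (16 : ℝ) ≤ ‖PsT q μ β t θ‖ * ‖PsT q μ β t θ‖ := by nlinarith
  rw [one_div]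
  exact inv_anti₀ (by positivity) h3

include hβ hμ hPh hP2 in
theorem good_heT (t : ∀ k, Fin (s k + 1)) : Good fun θ => he (etT w μ β t θ) :=
  good_he_comp (good_etT hβ hμ hPh hP2 t) (norm_etT_le hβ hμ hPh hP2 t)

include hβ hμ hPh hP2 in
theorem good_zT (t : ∀ k, Fin (s k + 1)) : Good (zT w μ β t) :=
  (good_PsT hβ hμ hPh hP2 t).mul (good_heT hβ hμ hPh hP2 t)

include hβ hμ in
/-- the main term -/
theorem main_FB (t p : ∀ k, Fin (s k + 1)) :
    (2 * Real.pi) ^ q * -pairing (Fin.cons (ww μ β t) (vf fun k => ff β t k (p k))) =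
      (2 * Real.pi) ^ (n + q) * (Real.log ‖μ‖ * (∏ k, if p k = t k then (1 : ℝ) else 0) +
        ∑ k, (∏ l ∈ Finset.univ.erase k, if p l = t l then (1 : ℝ) else 0) *
          LL (β k) (p k) (t k)) := by
  rw [pairing_ww hβ hμ, pow_add]
  unfold LL
  ring

include hβ hμ hPh hP2 in
theorem near_FB (hn : 0 < n) (t p : ∀ k, Fin (s k + 1)) :
    |pairing (Fin.cons (zT w μ β t) (vf (VV q β t p))) -
      (2 * Real.pi) ^ (n + q) * (Real.log ‖μ‖ * (∏ k, if p k = t k then (1 : ℝ) else 0) +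
        ∑ k, (∏ l ∈ Finset.univ.erase k, if p l = t l then (1 : ℝ) else 0) *
          LL (β k) (p k) (t k))| ≤ 2 * (2 * Real.pi) ^ (n + q) := by
  have hq : (0 : ℝ) ≤ q := Nat.cast_nonneg q
  have hpi := Real.pi_pos
  have hV := one_VV (q := q) hβ t p
  have gV : ∀ l, Good (vf (VV q β t p) l) := fun l => (hV l).good l
  have gPh := good_PhT (q := q) hβ hμ t
  have gk := good_kT hβ hμ hPh hP2 t
  have gPs := good_PsT hβ hμ hPh hP2 t
  have gh := good_heT (w := w) hβ hμ hPh hP2 t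
  have h1 : pairing (Fin.cons (zT w μ β t) (vf (VV q β t p))) =
      pairing (Fin.cons (PsT q μ β t) (vf (VV q β t p))) +
      pairing (Fin.cons (fun θ => he (etT w μ β t θ)) (vf (VV q β t p))) :=
    pairing_cons_mul gPs gh gV
  have h2 : pairing (Fin.cons (PsT q μ β t) (vf (VV q β t p))) =
      pairing (Fin.cons (PhT q μ β t) (vf (VV q β t p))) +
      pairing (Fin.cons (fun θ => 1 - kT q μ β t θ) (vf (VV q β t p))) :=
    pairing_cons_mul gPh gk gV
  have h3 := abs_pairing_log_le (d := n + q) (by omega) gk.smooth (fun θ i => by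
      simp only
      rw [per_kT hβ t θ i]) (slit_kT hPh hP2 t) hV (A := 3 / 4)
    (C := 2 * Real.pi)
    (fun θ => by
      have h5 := norm_kT_le_half hPh hP2 t θ
      have h6 := Complex.norm_log_one_add_half_le_self (z := -kT q μ β t θ) (by
        rw [norm_neg]
        linarith)
      rw [← sub_eq_add_neg, norm_neg] at h6
      linarith)
    (fun l x => norm_ld_VV hβ t p l x)
  have e2 : ∀ θ, he (etT w μ β t θ) = 1 + (he (etT w μ β t θ) - 1) := fun θ => by ring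
  have hb2 : ∀ θ, ‖he (etT w μ β t θ) - 1‖ ≤ 3 / 16 := fun θ => by
    have h5 := norm_etT_le (w := w) hβ hμ hPh hP2 t θ
    have h6 := norm_he_sub_one h5
    linarith
  have h4 := abs_pairing_log_le (d := n + q) (by omega) gh.smooth (fun θ i => by
      simp only
      rw [per_etT hβ t θ i]) (fun θ => by
      rw [e2]
      exact Complex.mem_slitPlane_of_norm_lt_one (lt_of_le_of_lt (hb2 θ) (by norm_num))) hV
    (A := 9 / 32) (C := 2 * Real.pi) (fun θ => by
      rw [e2]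
      have h5 := Complex.norm_log_one_add_half_le_self (z := he (etT w μ β t θ) - 1)
        ((hb2 θ).trans (by norm_num))
      linarith [hb2 θ])
    (fun l x => norm_ld_VV hβ t p l x)
  have h5 : pairing (Fin.cons (zT w μ β t) (vf (VV q β t p))) -
      (2 * Real.pi) ^ (n + q) * (Real.log ‖μ‖ * (∏ k, if p k = t k then (1 : ℝ) else 0) +
        ∑ k, (∏ l ∈ Finset.univ.erase k, if p l = t l then (1 : ℝ) else 0) *
          LL (β k) (p k) (t k)) =
      pairing (Fin.cons (fun θ => 1 - kT q μ β t θ) (vf (VV q β t p))) +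
      pairing (Fin.cons (fun θ => he (etT w μ β t θ)) (vf (VV q β t p))) := by
    rw [h1, h2, pairing_PhT hβ hμ, main_FB hβ hμ t p]
    ring
  rw [h5]
  refine (abs_add_le _ _).trans ((add_le_add h3 h4).trans ?_)
  have h6 : (0 : ℝ) ≤ (2 * Real.pi) ^ (n + q) := by positivity
  linarith

end bounds

end Pool.Agent.Run7.h363.BD
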