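import Pool.Agent.Run7.h363.BD.FBTori
set_option autoImplicit false

/-!
Final form of the conditions for the fibrations
`z + y_1 + ... + y_q + 1/(z ∏ y_i ^ (w_i + 1)) = λ ∏_k ∏_i (x_k - a_{k,i})`.
-/

namespace Pool.Agent.Run7.h363.BD

open Pool.Agent.TH826.MK (vf pairing)

open Pool.Agent.TH826.MH (qq)

open Pool.Agent.TH690.PF (mPhi SmoothPts IndepReg)

open Pool.Agent.TH826.UM (VV PhT zT sa sl d0)

variable {n q : ℕ}

/-- the constant -/
noncomputable def CstF (m : Fin (n + 1) → ℕ) (w : Fin q → ℕ) : ℝ :=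
  1 + 2 * (∏ k, ((m k : ℝ) + 1)) + Real.log (4 + 2 * ∑ i, ((w i : ℝ) + 1)) +
    ∑ k, (((m k : ℝ) + 1) * Real.log 3 + Real.log (2 * ((m k : ℝ) + 1) ^ m k))

variable {m : Fin (n + 1) → ℕ} {w : Fin q → ℕ} {δ : Fin (n + 1) → ℝ}

theorem CstF_eq (m : Fin (n + 1) → ℕ) (w : Fin q → ℕ) : CstF m w =
    1 + 2 * (∏ k, ((m k : ℝ) + 1)) + Real.log (4 + 2 * ∑ i, ((w i : ℝ) + 1)) +
      (∑ k, ((m k : ℝ) + 1) * Real.log 3 + ∑ k, Real.log (2 * ((m k : ℝ) + 1) ^ m k)) := by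
  unfold CstF
  congr 1
  exact Finset.sum_add_distrib

theorem sum_log3_nonneg (m : Fin (n + 1) → ℕ) : 0 ≤ ∑ k, ((m k : ℝ) + 1) * Real.log 3 :=
  Finset.sum_nonneg fun k _ => by
    have := Real.log_nonneg (by norm_num : (1 : ℝ) ≤ 3)
    positivity

theorem sum_logc_nonneg (m : Fin (n + 1) → ℕ) :
    0 ≤ ∑ k, Real.log (2 * ((m k : ℝ) + 1) ^ m k) := by
  refine Finset.sum_nonneg fun k _ => Real.log_nonneg ?_
  have h1 : (1 : ℝ) ≤ ((m k : ℝ) + 1) ^ m k := one_le_pow₀ (by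
    have : (0 : ℝ) ≤ m k := Nat.cast_nonneg _
    linarith)
  linarith

theorem sum_w_nonneg (w : Fin q → ℕ) : (q : ℝ) ≤ ∑ i, ((w i : ℝ) + 1) := by
  rw [Finset.sum_add_distrib, Finset.sum_const, Finset.card_univ, Fintype.card_fin,
    nsmul_eq_mul, mul_one]
  have : 0 ≤ ∑ i, (w i : ℝ) := Finset.sum_nonneg fun i _ => Nat.cast_nonneg _
  linarith

theorem indepReg_fin {K : Type*} [Field K] {σ : K →+* ℂ} {lam : K}
    {a : ∀ k, Fin (m k + 1) → K} (hlam : lam ≠ 0)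
    (hδ : ∀ k, 0 < δ k) (hsep : ∀ k i j, i ≠ j → δ k ≤ ‖σ (a k i) - σ (a k j)‖)
    (x0 y0 : ∀ k, Fin (m k + 1)) (hne : ∀ k, x0 k ≠ y0 k)
    (h : CstF m w ≤ Siz m ‖σ lam‖ δ fun k => ‖σ (a k (x0 k)) - σ (a k (y0 k))‖) :
    IndepReg w σ lam a := by
  classical
  have hpi := Real.pi_pos
  set D : Fin (n + 1) → ℝ := fun k => ‖σ (a k (x0 k)) - σ (a k (y0 k))‖ with hDd
  have hD : ∀ k, δ k ≤ D k := fun k => hsep k _ _ (hne k)
  have hD0 : ∀ k, 0 < D k := fun k => (hδ k).trans_le (hD k)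
  have hl0 : 0 < ‖σ lam‖ := norm_pos_iff.2 ((map_ne_zero σ).2 hlam)
  set ε : Fin (n + 1) → ℂ := fun k => ((δ k / 3 : ℝ) : ℂ) with hε
  have hε3 : ∀ k, 0 < δ k / 3 := fun k => by linarith [hδ k]
  have hε0 : ∀ k, ε k ≠ 0 := fun k => Complex.ofReal_ne_zero.2 (hε3 k).ne'
  have hεn : ∀ k, ‖ε k‖ = δ k / 3 := fun k => by
    simp only [hε]
    rw [Complex.norm_real, Real.norm_of_nonneg (hε3 k).le]
  set β : ∀ k, Fin (m k + 1) → ℂ := sa σ a ε with hβd
  set μ : ℂ := sl σ lam m ε with hμd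
  have hdist : ∀ k i j, ‖β k i - β k j‖ = 3 * ‖σ (a k i) - σ (a k j)‖ / δ k := by
    intro k i j
    rw [hβd]
    unfold sa
    rw [← sub_div, norm_div, hεn]
    have := hδ k
    field_simp
  have hβ : ∀ k i j, i ≠ j → 3 ≤ ‖β k i - β k j‖ := by
    intro k i j hij
    rw [hdist, le_div_iff₀ (hδ k)]
    linarith [hsep k i j hij]
  have hnl : ‖μ‖ = ‖σ lam‖ * ∏ k, (δ k / 3) ^ (m k + 1) := by
    rw [hμd]
    unfold sl
    rw [norm_mul, norm_prod]
    simp only [norm_pow, hεn]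
  have hμpos : 0 < ‖μ‖ := by
    rw [hnl]
    exact mul_pos hl0 (Finset.prod_pos fun k _ => pow_pos (hε3 k) _)
  have hμ0 : μ ≠ 0 := norm_pos_iff.1 hμpos
  have hlogl : Real.log ‖μ‖ = Real.log ‖σ lam‖ +
      ∑ k, ((m k : ℝ) + 1) * Real.log (δ k) - ∑ k, ((m k : ℝ) + 1) * Real.log 3 := by
    rw [hnl, Real.log_mul hl0.ne' (Finset.prod_ne_zero_iff.2 fun k _ => (pow_pos (hε3 k) _).ne'),
      Real.log_prod (fun k _ => (pow_pos (hε3 k) _).ne'), add_sub_assoc, ← Finset.sum_sub_distrib]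
    congr 1
    refine Finset.sum_congr rfl fun k _ => ?_
    rw [Real.log_pow, Real.log_div (hδ k).ne' (by norm_num)]
    push_cast
    ring
  set B : Fin (n + 1) → ℝ := fun k => ‖β k (x0 k) - β k (y0 k)‖ / 3 with hBd
  have hBe : ∀ k, B k = D k / δ k := by
    intro k
    simp only [hBd]
    rw [hdist]
    have := (hδ k).ne'
    field_simp
    rfl
  have hB0 : ∀ k, 0 < B k := fun k => by
    rw [hBe]
    exact div_pos (hD0 k) (hδ k)
  have hB : ∀ k, Low (β k) (B k) := fun k l x hx => prod_erase_ge (hβ k) (hne k) l x hx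
  have hCst : 1 + 2 * (∏ k, ((m k : ℝ) + 1)) + Real.log (4 + 2 * (q : ℝ)) +
      ∑ k, ((m k : ℝ) + 1) * Real.log 3 ≤ CstF m w := by
    rw [CstF_eq]
    have h1 := sum_logc_nonneg m
    have h2 : Real.log (4 + 2 * (q : ℝ)) ≤ Real.log (4 + 2 * ∑ i, ((w i : ℝ) + 1)) :=
      Real.log_le_log (by positivity) (by linarith [sum_w_nonneg w])
    linarith
  have hprod0 : (0 : ℝ) ≤ ∏ k, ((m k : ℝ) + 1) := Finset.prod_nonneg fun k _ => by positivity
  set P : ℝ := ‖μ‖ * ∏ k, B k with hPd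
  have hP0 : 0 < P := mul_pos hμpos (Finset.prod_pos fun k _ => hB0 k)
  have hlogP : Real.log P = Real.log (‖σ lam‖ * ∏ k, (δ k ^ (m k + 1) * (D k / δ k))) -
        ∑ k, ((m k : ℝ) + 1) * Real.log 3 := by
    rw [hPd, Real.log_mul hμpos.ne' (Finset.prod_ne_zero_iff.2 fun k _ => (hB0 k).ne')]
    simp only [hBe]
    rw [hlogl, Real.log_mul hl0.ne' (Finset.prod_ne_zero_iff.2 fun k _ =>
        (mul_pos (pow_pos (hδ k) _) (div_pos (hD0 k) (hδ k))).ne'), Finset.prod_mul_distrib,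
        Real.log_mul (Finset.prod_ne_zero_iff.2 fun k _ => (pow_pos (hδ k) _).ne')
        (Finset.prod_ne_zero_iff.2 fun k _ => (div_pos (hD0 k) (hδ k)).ne'),
        Real.log_prod (fun k _ => (pow_pos (hδ k) _).ne')]
    have e : ∀ k : Fin (n + 1), Real.log (δ k ^ (m k + 1)) =
        ((m k : ℝ) + 1) * Real.log (δ k) := by
      intro k
      rw [Real.log_pow]
      push_cast
      ring
    simp only [e]
    ring
  have hP2 : 4 + 2 * (q : ℝ) ≤ P := by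
    rw [← Real.log_le_log_iff (by positivity) hP0, hlogP]
    have h2 := Siz_le (r := m) hl0 hδ hD
    linarith
  have hPh : ∀ t (θ : Fin (n + 1 + q) → ℝ), P ≤ ‖PhT q μ β t θ‖ := fun t θ =>
    norm_PhT_ge' hB0 hB le_rfl t θ
  set b : Fin (n + 1) → ℝ := fun k => ((m k : ℝ) + 1) * Real.log 3 + max 0 (Real.log
        (‖β k (x0 k) - β k (y0 k)‖ / 6)) / (4 * ((m k : ℝ) + 1) + 4) with hb
  have hbsum : Real.log ‖μ‖ + ∑ k, b k = Siz m ‖σ lam‖ δ D := by
    have e1 : ∀ k, Real.log (‖β k (x0 k) - β k (y0 k)‖ / 6) = Real.log (D k / (2 * δ k)) := by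
      intro k
      rw [hdist]
      congr 1
      have := (hδ k).ne'
      field_simp
      ring
    simp only [hb, e1]
    rw [hlogl, Finset.sum_add_distrib]
    unfold Siz
    rw [Finset.sum_add_distrib]
    have e2 : ∑ k, max 0 (Real.log (D k / (2 * δ k))) / (4 * ((m k : ℝ) + 1) + 4) =
        ∑ k, max 0 (Real.log (D k / (2 * δ k))) / (4 * (m k : ℝ) + 8) :=
      Finset.sum_congr rfl fun k _ => by congr 1; ring
    rw [e2]
    ring
  refine indepReg_of w hε0 hβ hμ0 hPh hP2 ?_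
  set R : Matrix (∀ k, Fin (m k + 1)) (∀ k, Fin (m k + 1)) ℝ :=
    Matrix.of fun p t : (∀ k, Fin (m k + 1)) =>
      pairing (Fin.cons (zT w μ β t) (vf (VV q β t p))) with hR
  set S : (∀ k, Fin (m k + 1)) → (∀ k, Fin (m k + 1)) → ℝ := fun p t =>
    (2 * Real.pi) ^ (n + 1 + q) * (Real.log ‖μ‖ * (∏ k, if p k = t k then (1 : ℝ) else 0) +
      ∑ k, (∏ l ∈ Finset.univ.erase k, if p l = t l then (1 : ℝ) else 0) *
        LL (β k) (p k) (t k)) with hS
  refine exists_columns_of_pos0 R S (Λ := (2 * Real.pi) ^ (n + 1 + q) *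
    (Real.log ‖μ‖ + ∑ k, b k)) (e := 2 * (2 * Real.pi) ^ (n + 1 + q)) ?_ ?_ ?_
  · intro u hu
    have h1 := kron_sum (fun k => LL (β k)) b (Real.log ‖μ‖)
      (fun k v hv => LL_pos (hβ k) (hne k) v hv) u hu
    have h2 := mul_le_mul_of_nonneg_left h1 (by positivity : 0 ≤ (2 * Real.pi) ^ (n + 1 + q))
    rw [mul_assoc]
    refine h2.trans (le_of_eq ?_)
    rw [Finset.mul_sum]
    refine Finset.sum_congr rfl fun p _ => ?_
    rw [Finset.mul_sum]
    refine Finset.sum_congr rfl fun t _ => ?_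
    rw [hS]
    ring
  · intro p t
    exact near_FB (w := w) hβ hμ0 hPh hP2 (Nat.succ_pos _) t p
  · rw [Fintype.card_pi]
    simp only [Fintype.card_fin]
    push_cast
    have h1 : (∏ k, ((m k : ℝ) + 1)) * (2 * (2 * Real.pi) ^ (n + 1 + q)) =
        (2 * Real.pi) ^ (n + 1 + q) * (2 * ∏ k, ((m k : ℝ) + 1)) := by
      ring
    rw [h1, hbsum]
    refine mul_lt_mul_of_pos_left ?_ (by positivity)
    have h2 : 0 ≤ Real.log (4 + 2 * (q : ℝ)) := Real.log_nonneg (by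
      have : (0 : ℝ) ≤ q := Nat.cast_nonneg q
      linarith)
    have h3 := sum_log3_nonneg m
    linarith

theorem smoothPts_fin {K : Type*} [Field K] {σ : K →+* ℂ} {lam : K}
    {a : ∀ k, Fin (m k + 1) → K} (hlam : lam ≠ 0)
    (hδ : ∀ k, 0 < δ k) (hsep : ∀ k i j, i ≠ j → δ k ≤ ‖σ (a k i) - σ (a k j)‖)
    (x0 y0 : ∀ k, Fin (m k + 1)) (hne : ∀ k, x0 k ≠ y0 k)
    (h : CstF m w ≤ Siz m ‖σ lam‖ δ fun k => ‖σ (a k (x0 k)) - σ (a k (y0 k))‖) :
    SmoothPts w σ (mPhi lam a) := by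
  set D : Fin (n + 1) → ℝ := fun k => ‖σ (a k (x0 k)) - σ (a k (y0 k))‖ with hDd
  have hD : ∀ k, δ k ≤ D k := fun k => hsep k _ _ (hne k)
  have hD0 : ∀ k, 0 < D k := fun k => (hδ k).trans_le (hD k)
  have hl0 : 0 < ‖σ lam‖ := norm_pos_iff.2 ((map_ne_zero σ).2 hlam)
  have hr1 : ∀ k, (0 : ℝ) < (m k : ℝ) + 1 := fun k => by positivity
  set W : ℝ := ∑ i, ((w i : ℝ) + 1) with hW
  have hW0 : 0 ≤ W := Finset.sum_nonneg fun i _ => by positivity
  refine smoothPts_of w σ fun x h0 hcon => ?_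
  refine lt_of_lt_of_le ?_ (noncrit_of (by omega) σ
    (v := fun k => (δ k / (m k + 1)) ^ m k * (D k / 2))
    (fun k => by
      have := (hδ k).le
      have := (hD0 k).le
      positivity) (fun k c hc => crit_ge _ (hδ k) (hsep k) (x0 k) (y0 k) c hc) x h0 hcon)
  have h1 : ∀ k, (δ k / ((m k : ℝ) + 1)) ^ m k * (D k / 2) =
      (δ k ^ (m k + 1) * (D k / δ k)) / (2 * ((m k : ℝ) + 1) ^ m k) := by
    intro k
    have := (hδ k).ne'
    have := (hr1 k).ne'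
    rw [div_pow]
    field_simp
    ring
  simp only [h1]
  have hposc : 0 < ∏ k, (2 * ((m k : ℝ) + 1) ^ m k) := Finset.prod_pos fun k _ => by
    have := hr1 k
    positivity
  have hpos : 0 < ‖σ lam‖ * ∏ k, (δ k ^ (m k + 1) * (D k / δ k)) :=
    mul_pos hl0 (Finset.prod_pos fun k _ => mul_pos (pow_pos (hδ k) _) (div_pos (hD0 k) (hδ k)))
  rw [Finset.prod_div_distrib, ← mul_div_assoc]
  have hcast : ((∑ i, (w i + 1) : ℕ) : ℝ) + 2 = W + 2 := by
    push_cast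
    rfl
  rw [hcast, lt_div_iff₀ hposc]
  rw [← Real.log_lt_log_iff (mul_pos (by linarith) hposc) hpos, Real.log_mul (by linarith)
    hposc.ne', Real.log_prod (fun k _ => by
    have := hr1 k
    positivity)]
  refine lt_of_lt_of_le ?_ (Siz_le (r := m) hl0 hδ hD)
  refine lt_of_lt_of_le ?_ h
  rw [CstF_eq]
  have h3 := sum_log3_nonneg m
  have h4 : (0 : ℝ) ≤ ∏ k, ((m k : ℝ) + 1) := Finset.prod_nonneg fun k _ => (hr1 k).le
  have h5 : Real.log (W + 2) ≤ Real.log (4 + 2 * W) := Real.log_le_log (by linarith) (by linarith)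
  linarith

end Pool.Agent.Run7.h363.BD
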