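import Pool.Agent.Run7.h363.BD.Tori
import Pool.Agent.Run7.h363.BD.Crit
set_option autoImplicit false

/-!
Change of scale, and the final form of the conditions.
-/

namespace Pool.Agent.Run7.h363.BD

open Pool.Agent.TH826.MK (Torus symb)

open Pool.Agent.TH826.MH (CRing fpol ent ux fx eqn qq)

open Pool.Agent.TH826.UM (sl sa phi comap comap_reg phi_fpol phi0_C phi_ent)

variable {n : ℕ}

/-- the constant -/
noncomputable def Cst (r : Fin (n + 1) → ℕ) : ℝ :=
  1 + (∏ k, ((r k : ℝ) + 1)) * ((r 0 : ℝ) + 1) +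
    ∑ k, (((r k : ℝ) + 1) * Real.log 3 + Real.log (2 * ((r k : ℝ) + 1) ^ r k))

/-- the size of the data: logarithm of `|λ| ∏_k δ_k^(r_k + 1) (D_k / (2 δ_k))^(1 / (4 r_k + 8))`, where the
quotients `D_k / (2 δ_k)` are replaced by `1` if they are smaller than `1` -/
noncomputable def Siz (r : Fin (n + 1) → ℕ) (l : ℝ) (δ D : Fin (n + 1) → ℝ) : ℝ :=
  Real.log l + ∑ k, (((r k : ℝ) + 1) * Real.log (δ k) +
    max 0 (Real.log (D k / (2 * δ k))) / (4 * (r k : ℝ) + 8))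

variable {r : Fin (n + 1) → ℕ} {l : ℝ} {δ D : Fin (n + 1) → ℝ}

theorem Cst_ge (r : Fin (n + 1) → ℕ) :
    1 + (∏ k, ((r k : ℝ) + 1)) * ((r 0 : ℝ) + 1) + ∑ k, ((r k : ℝ) + 1) * Real.log 3 ≤ Cst r := by
  unfold Cst
  rw [Finset.sum_add_distrib]
  have h : 0 ≤ ∑ k, Real.log (2 * ((r k : ℝ) + 1) ^ r k) := by
    refine Finset.sum_nonneg fun k _ => Real.log_nonneg ?_
    have h1 : (1 : ℝ) ≤ ((r k : ℝ) + 1) ^ r k := one_le_pow₀ (by
      have : (0 : ℝ) ≤ r k := Nat.cast_nonneg _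
      linarith)
    linarith
  linarith

theorem Siz_le (hl : 0 < l) (hδ : ∀ k, 0 < δ k) (hD : ∀ k, δ k ≤ D k) :
    Siz r l δ D ≤ Real.log (l * ∏ k, (δ k ^ (r k + 1) * (D k / δ k))) := by
  have hDk : ∀ k, 0 < D k := fun k => (hδ k).trans_le (hD k)
  rw [Real.log_mul hl.ne' (Finset.prod_ne_zero_iff.2 fun k _ =>
    (mul_pos (pow_pos (hδ k) _) (div_pos (hDk k) (hδ k))).ne'), Real.log_prod (fun k _ =>
    (mul_pos (pow_pos (hδ k) _) (div_pos (hDk k) (hδ k))).ne')]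
  unfold Siz
  refine add_le_add le_rfl (Finset.sum_le_sum fun k _ => ?_)
  rw [Real.log_mul (pow_pos (hδ k) _).ne' (div_pos (hDk k) (hδ k)).ne', Real.log_pow]
  push_cast
  refine add_le_add le_rfl ?_
  have h1 : 0 ≤ Real.log (D k / δ k) := Real.log_nonneg (by
    rw [le_div_iff₀ (hδ k), one_mul]
    exact hD k)
  have h2 : max 0 (Real.log (D k / (2 * δ k))) ≤ Real.log (D k / δ k) := by
    refine max_le h1 (Real.log_le_log (div_pos (hDk k) (by linarith [hδ k])) ?_)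
    exact div_le_div_of_nonneg_left (hDk k).le (hδ k) (by linarith [hδ k])
  have h3 : (1 : ℝ) ≤ 4 * (r k : ℝ) + 8 := by
    have : (0 : ℝ) ≤ r k := Nat.cast_nonneg _
    linarith
  exact (div_le_self (le_max_left _ _) h3).trans h2

/-- tori on the hypersurface, final form -/
theorem exists_tori_fin {K : Type*} [Field K] {σ : K →+* ℂ} {lam : K} (hn : 0 < n)
    {a : ∀ k, Fin (r k + 1) → K} (hlam : lam ≠ 0)
    (hδ : ∀ k, 0 < δ k) (hsep : ∀ k i j, i ≠ j → δ k ≤ ‖σ (a k i) - σ (a k j)‖)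
    (x0 y0 : ∀ k, Fin (r k + 1)) (hne : ∀ k, x0 k ≠ y0 k)
    (h : Cst r ≤ Siz r ‖σ lam‖ δ fun k => ‖σ (a k (x0 k)) - σ (a k (y0 k))‖) :
    ∃ Γ : (∀ k, Fin (r k)) → Torus (CRing lam a) n,
      (∀ t θ (x : K), (Γ t).e θ (fpol lam a (MvPolynomial.C x)) = σ x) ∧
      (Matrix.of fun t i : (∀ k, Fin (r k)) => (Γ t).reg (symb (ent lam a i))).det ≠ 0 := by
  set D : Fin (n + 1) → ℝ := fun k => ‖σ (a k (x0 k)) - σ (a k (y0 k))‖ with hDd
  have hD : ∀ k, δ k ≤ D k := fun k => hsep k _ _ (hne k)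
  have hD0 : ∀ k, 0 < D k := fun k => (hδ k).trans_le (hD k)
  have hl0 : 0 < ‖σ lam‖ := norm_pos_iff.2 ((map_ne_zero σ).2 hlam)
  set ε : Fin (n + 1) → ℂ := fun k => ((δ k / 3 : ℝ) : ℂ) with hε
  have hε3 : ∀ k, 0 < δ k / 3 := fun k => by linarith [hδ k]
  have hε0 : ∀ k, ε k ≠ 0 := fun k => Complex.ofReal_ne_zero.2 (hε3 k).ne'
  have hεn : ∀ k, ‖ε k‖ = δ k / 3 := fun k => by
    simp only [hε]
    rw [Complex.norm_real, Real.norm_of_nonneg (hε3 k).le]
  have hdist : ∀ k i j, ‖(RingHom.id ℂ) (sa σ a ε k i) - (RingHom.id ℂ) (sa σ a ε k j)‖ =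
      3 * ‖σ (a k i) - σ (a k j)‖ / δ k := by
    intro k i j
    unfold sa
    rw [RingHom.id_apply, RingHom.id_apply, ← sub_div, norm_div, hεn]
    have := hδ k
    field_simp
  have hnl : ‖(RingHom.id ℂ) (sl σ lam r ε)‖ = ‖σ lam‖ * ∏ k, (δ k / 3) ^ (r k + 1) := by
    unfold sl
    rw [RingHom.id_apply, norm_mul, norm_prod]
    simp only [norm_pow, hεn]
  have hlogl : Real.log ‖(RingHom.id ℂ) (sl σ lam r ε)‖ = Real.log ‖σ lam‖ +
      ∑ k, ((r k : ℝ) + 1) * Real.log (δ k) - ∑ k, ((r k : ℝ) + 1) * Real.log 3 := by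
    rw [hnl, Real.log_mul hl0.ne' (Finset.prod_ne_zero_iff.2 fun k _ => (pow_pos (hε3 k) _).ne'),
      Real.log_prod (fun k _ => (pow_pos (hε3 k) _).ne'), add_sub_assoc, ← Finset.sum_sub_distrib]
    congr 1
    refine Finset.sum_congr rfl fun k _ => ?_
    rw [Real.log_pow, Real.log_div (hδ k).ne' (by norm_num)]
    push_cast
    ring
  set η : ℝ := ‖(RingHom.id ℂ) (sl σ lam r ε)‖ * ∏ k, (D k / δ k) with hη
  have hη0 : 0 < η := by
    rw [hη, hnl]
    exact mul_pos (mul_pos hl0 (Finset.prod_pos fun k _ => pow_pos (hε3 k) _))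
      (Finset.prod_pos fun k _ => div_pos (hD0 k) (hδ k))
  have hCst := Cst_ge r
  have hprod1 : (1 : ℝ) ≤ (∏ k, ((r k : ℝ) + 1)) * ((r 0 : ℝ) + 1) := by
    have h1 : (1 : ℝ) ≤ ∏ k, ((r k : ℝ) + 1) := Finset.one_le_prod fun k _ => by
      have : (0 : ℝ) ≤ r k := Nat.cast_nonneg _
      linarith
    have h2 : (0 : ℝ) ≤ r 0 := Nat.cast_nonneg _
    nlinarith
  have hlogη : 2 ≤ Real.log η := by
    have h1 : Real.log η = Real.log (‖σ lam‖ * ∏ k, (δ k ^ (r k + 1) * (D k / δ k))) -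
        ∑ k, ((r k : ℝ) + 1) * Real.log 3 := by
      rw [hη, Real.log_mul _ (Finset.prod_ne_zero_iff.2 fun k _ => (div_pos (hD0 k) (hδ k)).ne'),
        hlogl, Real.log_mul hl0.ne' (Finset.prod_ne_zero_iff.2 fun k _ =>
        (mul_pos (pow_pos (hδ k) _) (div_pos (hD0 k) (hδ k))).ne'), Finset.prod_mul_distrib,
        Real.log_mul (Finset.prod_ne_zero_iff.2 fun k _ => (pow_pos (hδ k) _).ne')
        (Finset.prod_ne_zero_iff.2 fun k _ => (div_pos (hD0 k) (hδ k)).ne'),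
        Real.log_prod (fun k _ => (pow_pos (hδ k) _).ne')]
      · have e : ∀ k : Fin (n + 1), Real.log (δ k ^ (r k + 1)) =
            ((r k : ℝ) + 1) * Real.log (δ k) := by
          intro k
          rw [Real.log_pow]
          push_cast
          ring
        simp only [e]
        ring
      · rw [hnl]
        exact (mul_pos hl0 (Finset.prod_pos fun k _ => pow_pos (hε3 k) _)).ne'
    have h2 := Siz_le (r := r) hl0 hδ hD
    linarith
  have hη2 : 2 ≤ η := by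
    have h1 := Real.add_one_le_exp (Real.log η)
    rw [Real.exp_log hη0] at h1
    linarith
  obtain ⟨Γ, h1, h2⟩ := exists_tori (K := ℂ) (σ := RingHom.id ℂ) (lam := sl σ lam r ε) hn
    (a := sa σ a ε) (fun k i j hij => by
      rw [hdist, le_div_iff₀ (hδ k)]
      linarith [hsep k i j hij]) x0 y0 hne hη2 (by
      rw [hη]
      refine le_of_eq ?_
      congr 1
      refine Finset.prod_congr rfl fun k _ => ?_
      rw [hdist]
      have := (hδ k).ne'
      field_simp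
      rfl) (by
      have e1 : ∀ k, Real.log (‖(RingHom.id ℂ) (sa σ a ε k (x0 k)) -
          (RingHom.id ℂ) (sa σ a ε k (y0 k))‖ / 6) = Real.log (D k / (2 * δ k)) := by
        intro k
        rw [hdist]
        congr 1
        have := (hδ k).ne'
        field_simp
        ring
      simp only [e1]
      rw [hlogl, Finset.sum_add_distrib]
      have e2 : ∑ k, max 0 (Real.log (D k / (2 * δ k))) / (4 * ((r k : ℝ) + 1) + 4) =
          ∑ k, max 0 (Real.log (D k / (2 * δ k))) / (4 * (r k : ℝ) + 8) :=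
        Finset.sum_congr rfl fun k _ => by congr 1; ring
      rw [e2]
      have e3 : Siz r ‖σ lam‖ δ D = Real.log ‖σ lam‖ + (∑ k, ((r k : ℝ) + 1) * Real.log (δ k) +
          ∑ k, max 0 (Real.log (D k / (2 * δ k))) / (4 * (r k : ℝ) + 8)) := by
        unfold Siz
        rw [Finset.sum_add_distrib]
      have h3 : 0 ≤ ∑ k, ((r k : ℝ) + 1) * Real.log 3 := Finset.sum_nonneg fun k _ => by
        have := Real.log_nonneg (by norm_num : (1 : ℝ) ≤ 3)
        positivity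
      have h4 : (∏ k, ((r k : ℝ) + 1)) * (((r 0 : ℝ) + 1) / (2 * η)) ≤
          (∏ k, ((r k : ℝ) + 1)) * ((r 0 : ℝ) + 1) := by
        refine mul_le_mul_of_nonneg_left (div_le_self (by positivity) (by linarith)) ?_
        exact Finset.prod_nonneg fun k _ => by positivity
      linarith)
  refine ⟨fun t => comap (phi lam a hε0) (Γ t), fun t θ x => ?_, ?_⟩
  · show (Γ t).e θ (phi lam a hε0 (fpol lam a (MvPolynomial.C x))) = σ x
    rw [phi_fpol, phi0_C, h1]
    rfl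
  · have hM : (Matrix.of fun t i : (∀ k, Fin (r k)) =>
        (comap (phi lam a hε0) (Γ t)).reg (symb (ent lam a i))) =
        Matrix.of fun t i : (∀ k, Fin (r k)) => (Γ t).reg (symb (ent _ _ i)) := by
      ext t i
      rw [Matrix.of_apply, Matrix.of_apply, comap_reg]
      simp only [phi_ent]
    rw [hM]
    exact h2

/-- smoothness, final form -/
theorem smooth_fin {K : Type*} [Field K] {σ : K →+* ℂ} {lam : K}
    {a : ∀ k, Fin (r k + 1) → K} (hlam : lam ≠ 0)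
    (hδ : ∀ k, 0 < δ k) (hsep : ∀ k i j, i ≠ j → δ k ≤ ‖σ (a k i) - σ (a k j)‖)
    (x0 y0 : ∀ k, Fin (r k + 1)) (hne : ∀ k, x0 k ≠ y0 k)
    (h : Cst r ≤ Siz r ‖σ lam‖ δ fun k => ‖σ (a k (x0 k)) - σ (a k (y0 k))‖)
    (x : Fin (n + 1) → ℂ) (hx : MvPolynomial.eval₂ σ x (eqn lam a) = 0) :
    ∃ k, MvPolynomial.eval₂ σ x (MvPolynomial.pderiv k (eqn lam a)) ≠ 0 := by
  set D : Fin (n + 1) → ℝ := fun k => ‖σ (a k (x0 k)) - σ (a k (y0 k))‖ with hDd
  have hD : ∀ k, δ k ≤ D k := fun k => hsep k _ _ (hne k)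
  have hD0 : ∀ k, 0 < D k := fun k => (hδ k).trans_le (hD k)
  have hl0 : 0 < ‖σ lam‖ := norm_pos_iff.2 ((map_ne_zero σ).2 hlam)
  have hr1 : ∀ k, (0 : ℝ) < (r k : ℝ) + 1 := fun k => by positivity
  refine smooth_of_crit (by omega) σ a (v := fun k => (δ k / (r k + 1)) ^ r k * (D k / 2))
    (fun k => by
      have := (hδ k).le
      have := (hD0 k).le
      positivity) (fun k c hc => crit_ge _ (hδ k) (hsep k) (x0 k) (y0 k) c hc) ?_ x hx
  have h1 : ∀ k, (δ k / ((r k : ℝ) + 1)) ^ r k * (D k / 2) =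
      (δ k ^ (r k + 1) * (D k / δ k)) / (2 * ((r k : ℝ) + 1) ^ r k) := by
    intro k
    have := (hδ k).ne'
    have := (hr1 k).ne'
    rw [div_pow]
    field_simp
    ring
  simp only [h1]
  rw [Finset.prod_div_distrib, ← mul_div_assoc, one_lt_div (Finset.prod_pos fun k _ => by
    have := hr1 k
    positivity)]
  have hpos : 0 < ‖σ lam‖ * ∏ k, (δ k ^ (r k + 1) * (D k / δ k)) :=
    mul_pos hl0 (Finset.prod_pos fun k _ => mul_pos (pow_pos (hδ k) _) (div_pos (hD0 k) (hδ k)))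
  rw [← Real.log_lt_log_iff (Finset.prod_pos fun k _ => by
    have := hr1 k
    positivity) hpos, Real.log_prod (fun k _ => by
    have := hr1 k
    positivity)]
  refine lt_of_lt_of_le ?_ (Siz_le (r := r) hl0 hδ hD)
  refine lt_of_lt_of_le ?_ h
  unfold Cst
  rw [Finset.sum_add_distrib]
  have h3 : 0 ≤ ∑ k, ((r k : ℝ) + 1) * Real.log 3 := Finset.sum_nonneg fun k _ => by
    have := Real.log_nonneg (by norm_num : (1 : ℝ) ≤ 3)
    positivity
  have h4 : (0 : ℝ) ≤ (∏ k, ((r k : ℝ) + 1)) * ((r 0 : ℝ) + 1) :=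
    mul_nonneg (Finset.prod_nonneg fun k _ => (hr1 k).le) (hr1 0).le
  linarith

end Pool.Agent.Run7.h363.BD
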