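import Pool.Agent.TH826.UM.Mat
set_option autoImplicit false

/-!
Laplacians of complete graphs with weights at least `a`, and Kronecker sums of such Laplacians on
functions on a grid with vanishing sums over all lines.
-/

namespace Pool.Agent.Run7.h363.BD

open Finset

/-- the quadratic form of a Laplacian -/
theorem lap_eq {N : ℕ} (w : Fin N → Fin N → ℝ) (hs : ∀ x y, w x y = w y x) (v : Fin N → ℝ) :
    ∑ x, ∑ y, v x * (((if x = y then ∑ i, w i x else 0) - w y x) * v y) =
      (∑ x, ∑ y, w x y * (v x - v y) ^ 2) / 2 := by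
  have h1 : ∀ x, ∑ y, v x * (((if x = y then ∑ i, w i x else 0) - w y x) * v y) =
      (∑ y, w x y * v x ^ 2) - ∑ y, w x y * (v x * v y) := by
    intro x
    have h2 : ∀ y, v x * (((if x = y then ∑ i, w i x else 0) - w y x) * v y) =
        (if x = y then (∑ i, w i x) * v x ^ 2 else 0) - w x y * (v x * v y) := by
      intro y
      rw [hs y x]
      split_ifs with h
      · subst h; ring
      · ring
    simp only [h2]
    rw [sum_sub_distrib, sum_ite_eq univ x, if_pos (mem_univ x), sum_mul]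
    congr 1
    exact sum_congr rfl fun i _ => by rw [hs i x]
  simp only [h1]
  rw [eq_div_iff (two_ne_zero), sum_sub_distrib]
  have h3 : ∑ x, ∑ y, w x y * v x ^ 2 = ∑ x, ∑ y, w x y * v y ^ 2 := by
    rw [sum_comm]
    exact sum_congr rfl fun x _ => sum_congr rfl fun y _ => by rw [hs y x]
  have h4 : ∑ x, ∑ y, w x y * (v x - v y) ^ 2 = (∑ x, ∑ y, w x y * v x ^ 2) +
      (∑ x, ∑ y, w x y * v y ^ 2) - 2 * ∑ x, ∑ y, w x y * (v x * v y) := by
    rw [mul_sum, ← sum_add_distrib, ← sum_sub_distrib]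
    refine sum_congr rfl fun x _ => ?_
    rw [mul_sum, ← sum_add_distrib, ← sum_sub_distrib]
    exact sum_congr rfl fun y _ => by ring
  rw [h4, ← h3]
  ring

/-- Lower bound for the Laplacian on vectors with sum zero: all weights are at least `a`, and every
vertex `x` has a neighbour `c x` in `{x0, y0}` with weight at least `a + W`. -/
theorem lap_one {N : ℕ} (w : Fin N → Fin N → ℝ) (hs : ∀ x y, w x y = w y x) {a W : ℝ}
    (hW : 0 ≤ W) (x0 y0 : Fin N) (c : Fin N → Fin N) (hc : ∀ x, c x = x0 ∨ c x = y0)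
    (hc0 : c x0 = y0) (ha : ∀ x y, x ≠ y → a ≤ w x y) (hcw : ∀ x, a + W ≤ w x (c x))
    (v : Fin N → ℝ) (hv : ∑ x, v x = 0) :
    (N * a + W / (4 * N + 4)) * ∑ x, v x ^ 2 ≤
      ∑ x, ∑ y, v x * (((if x = y then ∑ i, w i x else 0) - w y x) * v y) := by
  rw [lap_eq w hs v]
  have h1 : ∀ x y, a * (v x - v y) ^ 2 + (if y = c x then W * (v x - v y) ^ 2 else 0) ≤
      w x y * (v x - v y) ^ 2 := by
    intro x y
    by_cases hxy : x = y
    · subst hxy
      simp
    · by_cases h : y = c x
      · rw [if_pos h, ← add_mul]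
        subst h
        exact mul_le_mul_of_nonneg_right (hcw x) (sq_nonneg _)
      · rw [if_neg h, add_zero]
        exact mul_le_mul_of_nonneg_right (ha x y hxy) (sq_nonneg _)
  have h2 : ∑ x, ∑ y, (a * (v x - v y) ^ 2 + (if y = c x then W * (v x - v y) ^ 2 else 0)) ≤
      ∑ x, ∑ y, w x y * (v x - v y) ^ 2 := sum_le_sum fun x _ => sum_le_sum fun y _ => h1 x y
  have h3 : ∑ x, ∑ y, (a * (v x - v y) ^ 2 + (if y = c x then W * (v x - v y) ^ 2 else 0)) =
      a * (∑ x, ∑ y, (v x - v y) ^ 2) + W * ∑ x, (v x - v (c x)) ^ 2 := by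
    rw [mul_sum, mul_sum, ← sum_add_distrib]
    refine sum_congr rfl fun x _ => ?_
    rw [sum_add_distrib, ← mul_sum, sum_ite_eq' univ (c x), if_pos (mem_univ _)]
  have h4 : ∑ x, ∑ y, (v x - v y) ^ 2 = 2 * N * ∑ x, v x ^ 2 := by
    have h5 : ∀ x, ∑ y, (v x - v y) ^ 2 = N * v x ^ 2 - 2 * v x * ∑ y, v y + ∑ y, v y ^ 2 := by
      intro x
      rw [mul_sum]
      have h6 : (N : ℝ) * v x ^ 2 = ∑ _y : Fin N, v x ^ 2 := by
        rw [sum_const, card_univ, Fintype.card_fin, nsmul_eq_mul]
      rw [h6, ← sum_sub_distrib, ← sum_add_distrib]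
      exact sum_congr rfl fun y _ => by ring
    simp only [h5, hv, mul_zero, sub_zero]
    rw [sum_add_distrib, ← mul_sum, sum_const, card_univ, Fintype.card_fin, nsmul_eq_mul]
    ring
  set H : ℝ := ∑ x, (v x - v (c x)) ^ 2 with hH
  have hH0 : 0 ≤ H := sum_nonneg fun x _ => sq_nonneg _
  have hx0 : (v x0 - v y0) ^ 2 ≤ H := by
    have := single_le_sum (f := fun x => (v x - v (c x)) ^ 2) (fun x _ => sq_nonneg _)
      (mem_univ x0)
    simp only [hc0] at this
    exact this
  have h7 : ∑ x, v x ^ 2 ≤ (2 * N + 2) * H := by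
    have h8 : ∑ x, (v x - v x0) ^ 2 = ∑ x, v x ^ 2 + N * v x0 ^ 2 := by
      have h9 : ∀ x, (v x - v x0) ^ 2 = v x ^ 2 - 2 * v x0 * v x + v x0 ^ 2 := fun x => by ring
      simp only [h9]
      rw [sum_add_distrib, sum_sub_distrib, ← mul_sum, hv, sum_const, card_univ,
        Fintype.card_fin, nsmul_eq_mul]
      ring
    have h10 : ∀ x, (v x - v x0) ^ 2 ≤ 2 * (v x - v (c x)) ^ 2 + 2 * H := by
      intro x
      have h11 : (v (c x) - v x0) ^ 2 ≤ H := by
        rcases hc x with h | h
        · rw [h, sub_self]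
          simpa using hH0
        · rw [h, ← neg_sub, neg_sq]
          exact hx0
      nlinarith [sq_nonneg ((v x - v (c x)) - (v (c x) - v x0))]
    have h12 : ∑ x, (v x - v x0) ^ 2 ≤ ∑ x, (2 * (v x - v (c x)) ^ 2 + 2 * H) :=
      sum_le_sum fun x _ => h10 x
    rw [sum_add_distrib, ← mul_sum, sum_const, card_univ, Fintype.card_fin, nsmul_eq_mul,
      ← hH, h8] at h12
    have h13 : 0 ≤ (N : ℝ) * v x0 ^ 2 := by positivity
    linarith
  have hN : (0 : ℝ) < 4 * N + 4 := by positivity
  have h14 : W / (4 * N + 4) * ∑ x, v x ^ 2 ≤ W * H / 2 := by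
    calc W / (4 * N + 4) * ∑ x, v x ^ 2 ≤ W / (4 * N + 4) * ((2 * N + 2) * H) :=
          mul_le_mul_of_nonneg_left h7 (by positivity)
      _ = W * H / 2 := by
          field_simp
          ring
  rw [h3, h4] at h2
  rw [add_mul]
  linarith

section kron

variable {n : ℕ} {r : Fin (n + 1) → ℕ}

theorem prod_erase_ite (k : Fin (n + 1)) (p q : ∀ k, Fin (r k + 1)) :
    (∏ l ∈ univ.erase k, if p l = q l then (1 : ℝ) else 0) =
      if q = Function.update p k (q k) then 1 else 0 := by
  split_ifs with h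
  · refine prod_eq_one fun l hl => if_pos ?_
    rw [h, Function.update_of_ne (ne_of_mem_erase hl)]
  · obtain ⟨l, hl⟩ : ∃ l, q l ≠ Function.update p k (q k) l := by
      by_contra hcon
      push Not at hcon
      exact h (funext hcon)
    have hlk : l ≠ k := by
      rintro rfl
      exact hl (by rw [Function.update_self])
    rw [Function.update_of_ne hlk] at hl
    exact prod_eq_zero (mem_erase.2 ⟨hlk, mem_univ l⟩) (if_neg (Ne.symm hl))

/-- sums over the neighbours in one direction -/
theorem sum_line (k : Fin (n + 1)) (p : ∀ k, Fin (r k + 1)) (f : (∀ k, Fin (r k + 1)) → ℝ) :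
    ∑ q, (∏ l ∈ univ.erase k, if p l = q l then (1 : ℝ) else 0) * f q =
      ∑ y, f (Function.update p k y) := by
  have h1 : ∀ q, (∏ l ∈ univ.erase k, if p l = q l then (1 : ℝ) else 0) * f q =
      ∑ y, if q = Function.update p k y then f (Function.update p k y) else 0 := by
    intro q
    rw [prod_erase_ite]
    by_cases h : q = Function.update p k (q k)
    · rw [if_pos h, one_mul, sum_eq_single (q k)]
      · rw [if_pos h, ← h]
      · intro y _ hy
        rw [if_neg]
        intro h2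
        apply hy
        rw [h2, Function.update_self]
      · intro h2
        exact absurd (mem_univ _) h2
    · rw [if_neg h, zero_mul]
      symm
      refine sum_eq_zero fun y _ => if_neg ?_
      intro h2
      apply h
      rw [h2, Function.update_self]
  simp only [h1]
  rw [sum_comm]
  refine sum_congr rfl fun y _ => ?_
  rw [sum_ite_eq' univ (Function.update p k y), if_pos (mem_univ _)]

/-- sums over the grid as sums over lines -/
theorem sum_grid (k : Fin (n + 1)) (f : (∀ k, Fin (r k + 1)) → ℝ) :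
    ∑ p, f p = ∑ t : (∀ l : Fin n, Fin (r (k.succAbove l) + 1)), ∑ x : Fin (r k + 1),
      f (k.insertNth x t) := by
  rw [← Equiv.sum_comp (Fin.insertNthEquiv (fun k => Fin (r k + 1)) k), Fintype.sum_prod_type_right]
  rfl

theorem kron_one (k : Fin (n + 1)) (L : Fin (r k + 1) → Fin (r k + 1) → ℝ) {b : ℝ}
    (hL : ∀ v : Fin (r k + 1) → ℝ, ∑ x, v x = 0 →
      b * ∑ x, v x ^ 2 ≤ ∑ x, ∑ y, v x * (L x y * v y))
    (u : (∀ k, Fin (r k + 1)) → ℝ) (hu : ∀ p, ∑ x, u (Function.update p k x) = 0) :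
    b * ∑ p, u p ^ 2 ≤ ∑ p, ∑ q,
      u p * (((∏ l ∈ univ.erase k, if p l = q l then (1 : ℝ) else 0) * L (p k) (q k)) * u q) := by
  have h1 : ∀ p, ∑ q, u p * (((∏ l ∈ univ.erase k, if p l = q l then (1 : ℝ) else 0) *
      L (p k) (q k)) * u q) = ∑ y, u p * (L (p k) y * u (Function.update p k y)) := by
    intro p
    have h2 := sum_line k p fun q => u p * (L (p k) (q k) * u q)
    simp only [Function.update_self] at h2
    rw [← h2]
    exact sum_congr rfl fun q _ => by ring
  simp only [h1]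
  rw [sum_grid k, sum_grid k, mul_sum]
  refine sum_le_sum fun t _ => ?_
  have h3 := hL (fun x => u (k.insertNth x t)) (by
    have h4 := hu (k.insertNth (0 : Fin (r k + 1)) t)
    simp only [Fin.update_insertNth] at h4
    exact h4)
  simp only [Fin.insertNth_apply_same, Fin.update_insertNth]
  exact h3

/-- Kronecker sums -/
theorem kron_sum (L : ∀ k, Fin (r k + 1) → Fin (r k + 1) → ℝ) (b : Fin (n + 1) → ℝ) (m : ℝ)
    (hL : ∀ k (v : Fin (r k + 1) → ℝ), ∑ x, v x = 0 →
      b k * ∑ x, v x ^ 2 ≤ ∑ x, ∑ y, v x * (L k x y * v y))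
    (u : (∀ k, Fin (r k + 1)) → ℝ) (hu : ∀ k p, ∑ x, u (Function.update p k x) = 0) :
    (m + ∑ k, b k) * ∑ p, u p ^ 2 ≤ ∑ p, ∑ q, u p * ((m * (∏ k, if p k = q k then (1 : ℝ) else 0) +
      ∑ k, (∏ l ∈ univ.erase k, if p l = q l then (1 : ℝ) else 0) * L k (p k) (q k)) * u q) := by
  have h0 : ∀ p q : (∀ k, Fin (r k + 1)), (∏ k, if p k = q k then (1 : ℝ) else 0) =
      if p = q then 1 else 0 := by
    intro p q
    split_ifs with h
    · exact prod_eq_one fun k _ => if_pos (by rw [h])
    · obtain ⟨k, hk⟩ : ∃ k, p k ≠ q k := by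
        by_contra hcon
        push Not at hcon
        exact h (funext hcon)
      exact prod_eq_zero (mem_univ k) (if_neg hk)
  have h1 : ∑ p, ∑ q, u p * ((m * (∏ k, if p k = q k then (1 : ℝ) else 0) +
      ∑ k, (∏ l ∈ univ.erase k, if p l = q l then (1 : ℝ) else 0) * L k (p k) (q k)) * u q) =
      m * ∑ p, u p ^ 2 + ∑ k, ∑ p, ∑ q, u p *
        (((∏ l ∈ univ.erase k, if p l = q l then (1 : ℝ) else 0) * L k (p k) (q k)) * u q) := by
    have h2 : ∀ p : (∀ k, Fin (r k + 1)), ∑ q, u p * ((m * (∏ k, if p k = q k then (1 : ℝ) else 0) +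
      ∑ k, (∏ l ∈ univ.erase k, if p l = q l then (1 : ℝ) else 0) * L k (p k) (q k)) * u q) =
        m * u p ^ 2 + ∑ k, ∑ q, u p *
        (((∏ l ∈ univ.erase k, if p l = q l then (1 : ℝ) else 0) * L k (p k) (q k)) * u q) := by
      intro p
      have h3 : ∀ q : (∀ k, Fin (r k + 1)), u p * ((m * (∏ k, if p k = q k then (1 : ℝ) else 0) +
        ∑ k, (∏ l ∈ univ.erase k, if p l = q l then (1 : ℝ) else 0) * L k (p k) (q k)) * u q) =
          (if p = q then m * u p ^ 2 else 0) + ∑ k, u p *
        (((∏ l ∈ univ.erase k, if p l = q l then (1 : ℝ) else 0) * L k (p k) (q k)) * u q) := by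
        intro q
        rw [h0]
        rw [← mul_sum, ← sum_mul]
        split_ifs with h
        · subst h; ring
        · ring
      simp only [h3]
      rw [sum_add_distrib, sum_ite_eq univ p, if_pos (mem_univ p)]
      congr 1
      exact sum_comm
    simp only [h2]
    rw [sum_add_distrib, ← mul_sum]
    congr 1
    exact sum_comm
  rw [h1, add_mul, sum_mul]
  refine add_le_add le_rfl (sum_le_sum fun k _ => ?_)
  exact kron_one k (L k) (hL k) u (hu k)

end kron

section diff

open Matrix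

open Pool.Agent.TH826.UB (dd sum_dd sum_dd_le exists_submatrix)

open Pool.Agent.TH826.UM (sum_prod_pi)

variable {n : ℕ} {r : Fin (n + 1) → ℕ}

/-- If a matrix on the grid is near to a matrix which is positive definite on the functions with
vanishing sums over the lines, then for a suitable choice of columns the matrix of the mixed
differences of the rows is nonsingular. -/
theorem exists_columns_of_pos (R : Matrix (∀ k, Fin (r k + 1)) (∀ k, Fin (r k + 1)) ℝ)
    (S : (∀ k, Fin (r k + 1)) → (∀ k, Fin (r k + 1)) → ℝ) {Λ e : ℝ}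
    (hS : ∀ u : (∀ k, Fin (r k + 1)) → ℝ, (∀ k p, ∑ x, u (Function.update p k x) = 0) →
      Λ * ∑ p, u p ^ 2 ≤ ∑ p, ∑ q, u p * (S p q * u q))
    (hE : ∀ p q, |R p q - S p q| ≤ e)
    (hlt : (Fintype.card (∀ k, Fin (r k + 1)) : ℝ) * e < Λ) :
    ∃ f : (∀ k, Fin (r k)) → (∀ k, Fin (r k + 1)),
      (Matrix.of fun t i : (∀ k, Fin (r k)) =>
        ∑ p, (∏ k, dd (i k) (p k)) * R p (f t)).det ≠ 0 := by
  classical
  set D : Matrix (∀ k, Fin (r k)) (∀ k, Fin (r k + 1)) ℝ :=
    fun i p => ∏ k, dd (i k) (p k) with hD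
  set T : Matrix (∀ k, Fin (r k + 1)) (∀ k, Fin (r k)) ℝ :=
    fun p i => ∏ k, (if (p k : ℕ) ≤ i k then 1 else 0) with hT
  have hDT : D * T = 1 := by
    ext i j
    rw [Matrix.mul_apply]
    have h1 : ∀ p, D i p * T p j =
        ∏ k, (dd (i k) (p k) * (if (p k : ℕ) ≤ j k then 1 else 0)) := by
      intro p
      simp only [hD, hT]
      rw [Finset.prod_mul_distrib]
    simp only [h1]
    rw [sum_prod_pi (fun k x => dd (i k) x * (if (x : ℕ) ≤ j k then (1 : ℝ) else 0))]
    simp only [sum_dd_le]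
    by_cases hij : i = j
    · subst hij
      simp
    · rw [Matrix.one_apply_ne hij]
      obtain ⟨k, hk⟩ : ∃ k, i k ≠ j k := by
        by_contra h
        push Not at h
        exact hij (funext h)
      exact Finset.prod_eq_zero (Finset.mem_univ k) (if_neg hk)
  have hdet : (D * R * Dᵀ).det ≠ 0 := by
    intro h0
    obtain ⟨v, hv0, hv⟩ := Matrix.exists_mulVec_eq_zero_iff.2 h0
    set u : (∀ k, Fin (r k + 1)) → ℝ := Dᵀ *ᵥ v with hu
    have hup : ∀ p, u p = ∑ i, (∏ k, dd (i k) (p k)) * v i := by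
      intro p
      rw [hu]
      rfl
    have hu0 : u ≠ 0 := by
      intro h1
      apply hv0
      have h2 : (Tᵀ * Dᵀ) *ᵥ v = 0 := by
        rw [← Matrix.mulVec_mulVec, ← hu, h1, Matrix.mulVec_zero]
      rw [← Matrix.transpose_mul, hDT, Matrix.transpose_one, Matrix.one_mulVec] at h2
      exact h2
    have hline : ∀ k p, ∑ x, u (Function.update p k x) = 0 := by
      intro k p
      simp only [hup]
      rw [Finset.sum_comm]
      refine Finset.sum_eq_zero fun i _ => ?_
      rw [← Finset.sum_mul]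
      have h3 : ∀ x, ∏ l, dd (i l) (Function.update p k x l) =
          dd (i k) x * ∏ l ∈ univ.erase k, dd (i l) (p l) := by
        intro x
        rw [← Finset.mul_prod_erase _ _ (Finset.mem_univ k), Function.update_self]
        congr 1
        exact Finset.prod_congr rfl fun l hl => by
          rw [Function.update_of_ne (Finset.ne_of_mem_erase hl)]
      simp only [h3]
      rw [← Finset.sum_mul]
      have h4 : ∑ x, dd (i k) x = 0 := by
        have := sum_dd (i k) fun _ => (1 : ℝ)
        simpa using this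
      rw [h4, zero_mul, zero_mul]
    have h5 : u ⬝ᵥ (R *ᵥ u) = 0 := by
      have h6 : v ⬝ᵥ ((D * R * Dᵀ) *ᵥ v) = 0 := by rw [hv, dotProduct_zero]
      rw [← Matrix.mulVec_mulVec, ← Matrix.mulVec_mulVec, ← hu, Matrix.dotProduct_mulVec,
        ← Matrix.mulVec_transpose, ← hu] at h6
      exact h6
    have h7 : u ⬝ᵥ (R *ᵥ u) = ∑ p, ∑ q, u p * (R p q * u q) := by
      unfold dotProduct Matrix.mulVec dotProduct
      exact Finset.sum_congr rfl fun p _ => Finset.mul_sum _ _ _
    have h8 := hS u hline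
    have hpos : 0 < ∑ p, u p ^ 2 := by
      obtain ⟨p, hp⟩ : ∃ p, u p ≠ 0 := by
        by_contra hcon
        push Not at hcon
        exact hu0 (funext hcon)
      exact Finset.sum_pos' (fun p _ => sq_nonneg _) ⟨p, Finset.mem_univ p, by positivity⟩
    have h9 : ∑ p, ∑ q, u p * (S p q * u q) - ∑ p, ∑ q, u p * (R p q * u q) ≤
        e * (∑ p, |u p|) ^ 2 := by
      rw [← Finset.sum_sub_distrib, sq, Finset.sum_mul_sum, Finset.mul_sum]
      refine Finset.sum_le_sum fun p _ => ?_
      rw [← Finset.sum_sub_distrib, Finset.mul_sum]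
      refine Finset.sum_le_sum fun q _ => ?_
      have h10 : u p * (S p q * u q) - u p * (R p q * u q) = -((R p q - S p q) * (u p * u q)) := by
        ring
      rw [h10]
      refine (neg_le_abs _).trans ?_
      rw [abs_mul, abs_mul]
      exact mul_le_mul_of_nonneg_right (hE p q) (by positivity)
    have he0 : 0 ≤ e := (abs_nonneg _).trans (hE (fun _ => 0) (fun _ => 0))
    have h11 : (∑ p, |u p|) ^ 2 ≤ (Fintype.card (∀ k, Fin (r k + 1)) : ℝ) * ∑ p, u p ^ 2 := by
      have := sq_sum_le_card_mul_sum_sq (s := (Finset.univ : Finset (∀ k, Fin (r k + 1))))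
        (f := fun p => |u p|)
      simpa [sq_abs] using this
    have h12 := mul_le_mul_of_nonneg_left h11 he0
    rw [← h7, h5] at h9
    nlinarith
  obtain ⟨f, hf⟩ := exists_submatrix (D * R) Dᵀ hdet
  refine ⟨f, ?_⟩
  rw [← Matrix.det_transpose] at hf
  exact hf

end diff

end Pool.Agent.Run7.h363.BD
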