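import Pool.Agent.TH826.UM.Exp0
import Pool.Agent.Run7.h363.BD.Lap
set_option autoImplicit false

/-!
The differences with respect to the first function, for matrices which are positive definite on
the functions with vanishing sums over the lines.
-/

namespace Pool.Agent.Run7.h363.BD

open Matrix Finset

open Pool.Agent.TH826.UB (exists_submatrix)

open Pool.Agent.TH826.UM (sum_prod_pi d0 sum_d0)

variable {n : ℕ} {r : Fin n → ℕ}

theorem exists_columns_of_pos0 (R : Matrix (∀ k, Fin (r k + 1)) (∀ k, Fin (r k + 1)) ℝ)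
    (S : (∀ k, Fin (r k + 1)) → (∀ k, Fin (r k + 1)) → ℝ) {Λ e : ℝ}
    (hS : ∀ u : (∀ k, Fin (r k + 1)) → ℝ, (∀ k p, ∑ x, u (Function.update p k x) = 0) →
      Λ * ∑ p, u p ^ 2 ≤ ∑ p, ∑ q, u p * (S p q * u q))
    (hE : ∀ p q, |R p q - S p q| ≤ e)
    (hlt : (Fintype.card (∀ k, Fin (r k + 1)) : ℝ) * e < Λ) :
    ∃ f : (∀ k, Fin (r k)) → (∀ k, Fin (r k + 1)),
      (Matrix.of fun t i : (∀ k, Fin (r k)) =>
        ∑ p, (∏ k, d0 (i k) (p k)) * R p (f t)).det ≠ 0 := by
  classical
  set D : Matrix (∀ k, Fin (r k)) (∀ k, Fin (r k + 1)) ℝ :=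
    fun i p => ∏ k, d0 (i k) (p k) with hD
  set T : Matrix (∀ k, Fin (r k + 1)) (∀ k, Fin (r k)) ℝ :=
    fun p i => ∏ k, (if p k = (i k).succ then 1 else 0) with hT
  have hDT : D * T = 1 := by
    ext i j
    rw [Matrix.mul_apply]
    have h1 : ∀ p, D i p * T p j =
        ∏ k, (d0 (i k) (p k) * (if p k = (j k).succ then 1 else 0)) := by
      intro p
      simp only [hD, hT]
      rw [Finset.prod_mul_distrib]
    simp only [h1]
    rw [sum_prod_pi (fun k x => d0 (i k) x * (if x = (j k).succ then (1 : ℝ) else 0))]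
    simp only [sum_d0]
    by_cases hij : i = j
    · subst hij
      simp
    · rw [Matrix.one_apply_ne hij]
      obtain ⟨k, hk⟩ : ∃ k, i k ≠ j k := by
        by_contra h
        push Not at h
        exact hij (funext h)
      exact Finset.prod_eq_zero (Finset.mem_univ k) (if_neg hk)
  have hdet : (D * R * Dᵀ).det ≠ 0 := by
    intro h0
    obtain ⟨v, hv0, hv⟩ := Matrix.exists_mulVec_eq_zero_iff.2 h0
    set u : (∀ k, Fin (r k + 1)) → ℝ := Dᵀ *ᵥ v with hu
    have hup : ∀ p, u p = ∑ i, (∏ k, d0 (i k) (p k)) * v i := by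
      intro p
      rw [hu]
      rfl
    have hu0 : u ≠ 0 := by
      intro h1
      apply hv0
      have h2 : (Tᵀ * Dᵀ) *ᵥ v = 0 := by
        rw [← Matrix.mulVec_mulVec, ← hu, h1, Matrix.mulVec_zero]
      rw [← Matrix.transpose_mul, hDT, Matrix.transpose_one, Matrix.one_mulVec] at h2
      exact h2
    have hline : ∀ k p, ∑ x, u (Function.update p k x) = 0 := by
      intro k p
      simp only [hup]
      rw [Finset.sum_comm]
      refine Finset.sum_eq_zero fun i _ => ?_
      rw [← Finset.sum_mul]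
      have h3 : ∀ x, ∏ l, d0 (i l) (Function.update p k x l) =
          d0 (i k) x * ∏ l ∈ univ.erase k, d0 (i l) (p l) := by
        intro x
        rw [← Finset.mul_prod_erase _ _ (Finset.mem_univ k), Function.update_self]
        congr 1
        exact Finset.prod_congr rfl fun l hl => by
          rw [Function.update_of_ne (Finset.ne_of_mem_erase hl)]
      simp only [h3]
      rw [← Finset.sum_mul]
      have h4 : ∑ x, d0 (i k) x = 0 := by
        unfold d0
        simp
      rw [h4, zero_mul, zero_mul]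
    have h5 : u ⬝ᵥ (R *ᵥ u) = 0 := by
      have h6 : v ⬝ᵥ ((D * R * Dᵀ) *ᵥ v) = 0 := by rw [hv, dotProduct_zero]
      rw [← Matrix.mulVec_mulVec, ← Matrix.mulVec_mulVec, ← hu, Matrix.dotProduct_mulVec,
        ← Matrix.mulVec_transpose, ← hu] at h6
      exact h6
    have h7 : u ⬝ᵥ (R *ᵥ u) = ∑ p, ∑ q, u p * (R p q * u q) := by
      unfold dotProduct Matrix.mulVec dotProduct
      exact Finset.sum_congr rfl fun p _ => Finset.mul_sum _ _ _
    have h8 := hS u hline
    have hpos : 0 < ∑ p, u p ^ 2 := by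
      obtain ⟨p, hp⟩ : ∃ p, u p ≠ 0 := by
        by_contra hcon
        push Not at hcon
        exact hu0 (funext hcon)
      exact Finset.sum_pos' (fun p _ => sq_nonneg _) ⟨p, Finset.mem_univ p, by positivity⟩
    have h9 : ∑ p, ∑ q, u p * (S p q * u q) - ∑ p, ∑ q, u p * (R p q * u q) ≤
        e * (∑ p, |u p|) ^ 2 := by
      rw [← Finset.sum_sub_distrib, sq, Finset.sum_mul_sum, Finset.mul_sum]
      refine Finset.sum_le_sum fun p _ => ?_
      rw [← Finset.sum_sub_distrib, Finset.mul_sum]
      refine Finset.sum_le_sum fun q _ => ?_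
      have h10 : u p * (S p q * u q) - u p * (R p q * u q) = -((R p q - S p q) * (u p * u q)) := by
        ring
      rw [h10]
      refine (neg_le_abs _).trans ?_
      rw [abs_mul, abs_mul]
      exact mul_le_mul_of_nonneg_right (hE p q) (by positivity)
    have he0 : 0 ≤ e := (abs_nonneg _).trans (hE (fun _ => 0) (fun _ => 0))
    have h11 : (∑ p, |u p|) ^ 2 ≤ (Fintype.card (∀ k, Fin (r k + 1)) : ℝ) * ∑ p, u p ^ 2 := by
      have := sq_sum_le_card_mul_sum_sq (s := (Finset.univ : Finset (∀ k, Fin (r k + 1))))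
        (f := fun p => |u p|)
      simpa [sq_abs] using this
    have h12 := mul_le_mul_of_nonneg_left h11 he0
    rw [← h7, h5] at h9
    nlinarith
  obtain ⟨f, hf⟩ := exists_submatrix (D * R) Dᵀ hdet
  refine ⟨f, ?_⟩
  rw [← Matrix.det_transpose] at hf
  exact hf

end Pool.Agent.Run7.h363.BD
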