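import Pool.Agent.TH826.UM.FBTori
import Pool.Agent.Run7.h363.BD.FB
import Pool.Agent.Run7.h363.BD.Lap0
import Pool.Agent.Run7.h363.BD.Fin
set_option autoImplicit false

/-!
Tori in the fibrations `z + y_1 + ... + y_q + 1/(z ∏ y_i ^ (w_i + 1)) = λ ∏_k ∏_i (x_k - a_{k,i})`
and smoothness, in terms of the diameters of the sets of roots.
-/

namespace Pool.Agent.Run7.h363.BD

open Pool.Agent.TH826.MK (Torus symb Good Per pairing circ vf contDiff_circ tpt_add_single)

open Pool.Agent.TH826.MH (qq eqn_eq pderiv_eqn eval_aeval)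

open Pool.Agent.TH690.PF (PRing POpen mPhi fl pent ux uy uz pcst PPt mkP mkP_ux mkP_uy mkP_uz
  eval_mPhi SmoothPts IndepReg)

open Pool.Agent.TH690.SF (he he_eq)

open Pool.Agent.TH826.UM (ff one_ff VV PhT good_PhT yT kT PsT etT zT good_yT per_yT per_zT sa sl
  append_eq_vf pairing_expandA d0)

section tori

variable {K : Type*} [Field K] {n q : ℕ} {m : Fin n → ℕ} {σ : K →+* ℂ} {lam : K}
  {a : (k : Fin n) → Fin (m k + 1) → K}

/-- a nonsingular matrix of mixed differences gives independent regulators -/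
theorem indepReg_of (w : Fin q → ℕ) {ε : Fin n → ℂ} (hε0 : ∀ k, ε k ≠ 0)
    (hβ : ∀ k i j, i ≠ j → 3 ≤ ‖sa σ a ε k i - sa σ a ε k j‖) (hμ0 : sl σ lam m ε ≠ 0) {P : ℝ}
    (hPh : ∀ t (θ : Fin (n + q) → ℝ), P ≤ ‖PhT q (sl σ lam m ε) (sa σ a ε) t θ‖)
    (hP2 : 4 + 2 * (q : ℝ) ≤ P)
    (hcol : ∃ e : (∀ k, Fin (m k)) → (∀ k, Fin (m k + 1)),
      (Matrix.of fun t i : (∀ k, Fin (m k)) =>
        ∑ p, (∏ k, d0 (i k) (p k)) * (Matrix.of fun p t : (∀ k, Fin (m k + 1)) =>
          pairing (Fin.cons (zT w (sl σ lam m ε) (sa σ a ε) t) (vf (VV q (sa σ a ε) t p))))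
            p (e t)).det ≠ 0) :
    IndepReg w σ lam a := by
  classical
  set β : ∀ k, Fin (m k + 1) → ℂ := sa σ a ε with hβd
  set μ : ℂ := sl σ lam m ε with hμd
  set X : (∀ k, Fin (m k + 1)) → (Fin (n + q) → ℝ) → (Fin n → ℂ) := fun t θ k =>
    ε k * circ 1 (θ (Fin.castAdd q k)) + σ (a k (t k)) with hX
  have hXf : ∀ t θ (k : Fin n) i, X t θ k - σ (a k i) =
      ε k * ff β t k i (θ (Fin.castAdd q k)) := by
    intro t θ k i
    have h1 := hε0 k
    simp only [hX, hβd]
    unfold ff sa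
    field_simp
    ring
  have hXc : ∀ t, ContDiff ℝ 2 (X t) := fun t => contDiff_pi.2 fun k =>
    (contDiff_const.mul ((contDiff_circ 1).comp (contDiff_apply ℝ ℝ (Fin.castAdd q k)))).add
      contDiff_const
  have hXp : ∀ t θ i, X t (θ + Pi.single i 1) = X t θ := by
    intro t θ i
    funext k
    simp only [hX]
    congr 2
    exact congrFun (tpt_add_single (fun _ => 1) θ i) (Fin.castAdd q k)
  have hPhi : ∀ t θ, MvPolynomial.eval₂ σ (X t θ) (mPhi lam a) = PhT q μ β t θ := by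
    intro t θ
    rw [eval_mPhi, Fintype.prod_sigma]
    simp only [hXf, Finset.prod_mul_distrib, Finset.prod_const, Finset.card_univ,
      Fintype.card_fin]
    simp only [hμd]
    unfold sl PhT
    ring
  have hyc : ContDiff ℝ 2 fun θ : Fin (n + q) → ℝ => yT n θ := contDiff_pi.2 fun i =>
    (good_yT (n := n) i).smooth
  have hyp : ∀ (θ : Fin (n + q) → ℝ) i, yT n (θ + Pi.single i 1) = yT n θ := fun θ i =>
    funext fun j => per_yT θ i j
  have hPt : ∀ t θ, PPt w σ (mPhi lam a) (X t θ) (yT n θ) (zT w μ β t θ) := by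
    intro t θ
    have g1 := (good_PhT (q := q) hβ hμ0 t).ne_zero θ
    refine ⟨?_, by rw [hPhi]; exact g1⟩
    have h1 : ∑ i, yT n θ i - MvPolynomial.eval₂ σ (X t θ) (mPhi lam a) =
        -PsT q μ β t θ := by
      rw [hPhi]
      unfold PsT kT
      field_simp
      ring
    rw [h1]
    have h2 := he_eq (norm_etT_le (w := w) hβ hμ0 hPh hP2 t θ)
    have g2 := (good_etT (w := w) hβ hμ0 hPh hP2 t).ne_zero θ
    have h3 : (∏ i, yT n θ i ^ (w i + 1)) * (PsT q μ β t θ * PsT q μ β t θ) *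
        etT w μ β t θ = 1 := by
      unfold etT at g2 ⊢
      exact mul_inv_cancel₀ fun h => g2 (by rw [h, inv_zero])
    unfold zT
    linear_combination ((∏ i, yT n θ i ^ (w i + 1)) *
      (PsT q μ β t θ * PsT q μ β t θ)) * h2 - h3
  set Γ' : (∀ k, Fin (m k + 1)) → Torus (POpen w (mPhi lam a)) (n + q) := fun t =>
    mkP (X t) (fun θ => yT n θ) (zT w μ β t) (hXc t) hyc (good_zT hβ hμ0 hPh hP2 t).smooth
      (hXp t) hyp (fun θ i => per_zT hβ t θ i) (hPt t) with hΓ'
  have hux : ∀ t (k : Fin n) i, (Γ' t).fn (ux w lam a ⟨k, i⟩ : POpen w (mPhi lam a)) =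
      fun θ => ε k * ff β t k i (θ (Fin.castAdd q k)) := by
    intro t k i
    refine (mkP_ux (X t) (fun θ => yT n θ) (zT w μ β t) (hXc t) hyc
      (good_zT hβ hμ0 hPh hP2 t).smooth
      (hXp t) hyp (fun θ i => per_zT hβ t θ i) (hPt t) ⟨k, i⟩).trans ?_
    funext θ
    exact hXf t θ k i
  have huz : ∀ t, (Γ' t).fn (uz w (mPhi lam a) : POpen w (mPhi lam a)) = zT w μ β t := fun t =>
    mkP_uz (X t) (fun θ => yT n θ) (zT w μ β t) (hXc t) hyc (good_zT hβ hμ0 hPh hP2 t).smooth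
      (hXp t) hyp (fun θ i => per_zT hβ t θ i) (hPt t)
  have huy : ∀ t j, (Γ' t).fn (uy w (mPhi lam a) j : POpen w (mPhi lam a)) =
      fun θ => yT n θ j := fun t j =>
    mkP_uy (X t) (fun θ => yT n θ) (zT w μ β t) (hXc t) hyc (good_zT hβ hμ0 hPh hP2 t).smooth
      (hXp t) hyp (fun θ i => per_zT hβ t θ i) (hPt t) j
  have hent : ∀ t (i : ∀ k, Fin (m k)), (Γ' t).reg (symb (pent w lam a i)) =
      ∑ p, (∏ k, d0 (i k) (p k)) * pairing (Fin.cons (zT w μ β t) (vf (VV q β t p))) := by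
    intro t i
    have h1 := pairing_expandA (good_zT (w := w) hβ hμ0 hPh hP2 t) (per_zT hβ t)
      (g := fun j θ => yT n θ j) (fun j => good_yT j) (fun j θ i => per_yT θ i j)
      (F := fun k i (θ : Fin (n + q) → ℝ) => ff β t k i (θ (Fin.castAdd q k)))
      (fun k i => (one_ff hβ t k i).good _) (fun k i => (one_ff hβ t k i).periodic _) i
    have h2 : (Γ' t).reg (symb (pent w lam a i)) = pairing (Fin.cons (zT w μ β t)
        (Fin.append (fun k (θ : Fin (n + q) → ℝ) =>
          ff β t k (i k).succ (θ (Fin.castAdd q k)) / ff β t k 0 (θ (Fin.castAdd q k)))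
          fun j θ => yT n θ j)) := by
      rw [Torus.reg_symb]
      unfold Torus.pair
      congr 1
      funext l
      refine Fin.cases ?_ (fun l => ?_) l
      · exact huz t
      · rw [Fin.cons_succ]
        refine Fin.addCases (fun k => ?_) (fun j => ?_) l
        · rw [Fin.append_left]
          have h3 : pent w lam a i (Fin.castAdd q k).succ =
              ux w lam a ⟨k, (i k).succ⟩ / ux w lam a ⟨k, 0⟩ := by
            unfold pent
            rw [Fin.cons_succ, Fin.append_left]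
          funext θ
          have h4 := ((Γ' t).good (ux w lam a ⟨k, 0⟩)).ne_zero θ
          have h5 : (Γ' t).fn ((ux w lam a ⟨k, (i k).succ⟩ / ux w lam a ⟨k, 0⟩ :
              (POpen w (mPhi lam a))ˣ) : POpen w (mPhi lam a)) θ =
              (Γ' t).fn (ux w lam a ⟨k, (i k).succ⟩ : POpen w (mPhi lam a)) θ /
              (Γ' t).fn (ux w lam a ⟨k, 0⟩ : POpen w (mPhi lam a)) θ := by
            rw [eq_div_iff h4]
            unfold Torus.fn
            rw [← map_mul, ← Units.val_mul, div_mul_cancel]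
          rw [h3, h5, hux, hux, mul_div_mul_left _ _ (hε0 k)]
        · rw [Fin.append_right]
          have h3 : pent w lam a i (Fin.natAdd n j).succ = uy w (mPhi lam a) j := by
            unfold pent
            rw [Fin.cons_succ, Fin.append_right]
          rw [h3]
          exact huy t j
    rw [h2, h1]
    simp only [append_eq_vf]
  obtain ⟨e, he'⟩ := hcol
  refine ⟨fun t => Γ' (e t), fun t θ x => (hPt (e t) θ).evA_pcst x, ?_⟩
  have hM : (Matrix.of fun t i : (∀ k, Fin (m k)) =>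
      (Γ' (e t)).reg (symb (pent w lam a i))) = Matrix.of fun t i : (∀ k, Fin (m k)) =>
      ∑ p, (∏ k, d0 (i k) (p k)) * (Matrix.of fun p t : (∀ k, Fin (m k + 1)) =>
        pairing (Fin.cons (zT w μ β t) (vf (VV q β t p)))) p (e t) := by
    ext t i
    rw [Matrix.of_apply, Matrix.of_apply]
    exact hent (e t) i
  rw [hM]
  exact he'

end tori

section smooth

variable {K : Type*} [Field K] {n q : ℕ} {m : Fin n → ℕ} {lam : K}
  {a : (k : Fin n) → Fin (m k + 1) → K}

/-- smoothness if the values of `Φ` at the critical points are `0` or large; following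
`Pool.Agent.TH690.PF.exists_smoothPts` -/
theorem smoothPts_of (w : Fin q → ℕ) (σ : K →+* ℂ)
    (hnc : ∀ x, MvPolynomial.eval₂ σ x (mPhi lam a) ≠ 0 →
      (∀ j, MvPolynomial.eval₂ σ x (MvPolynomial.pderiv j (mPhi lam a)) = 0) →
      ((∑ i, (w i + 1) : ℕ) : ℝ) + 2 < ‖MvPolynomial.eval₂ σ x (mPhi lam a)‖) :
    SmoothPts w σ (mPhi lam a) := by
  intro x y z Y t hY ht heq
  set w0 : ℕ := ∑ i, (w i + 1) with hw0
  by_contra hcon
  push Not at hcon
  obtain ⟨h1, h2, h3⟩ := hcon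
  set Φ : ℂ := MvPolynomial.eval₂ σ x (mPhi lam a) with hΦdef
  have hYz : Y ≠ 0 ∧ z ≠ 0 := by
    constructor
    · intro h
      rw [h] at heq
      norm_num at heq
    · intro h
      rw [h] at heq
      norm_num at heq
  obtain ⟨hY0, hz0⟩ := hYz
  have hYz2 : Y * z ^ 2 = 1 := by linear_combination z * h1 - heq
  have hyz : ∀ i, y i = (w i + 1) * z := by
    intro i
    have h4 := h2 i
    have h5 : y i ^ (w i + 1) * ∏ k ∈ Finset.univ.erase i, y k ^ (w k + 1) = Y := by
      rw [hY]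
      exact Finset.mul_prod_erase Finset.univ (fun k => y k ^ (w k + 1)) (Finset.mem_univ i)
    rw [pow_succ] at h5
    have h6 : Y * z * (y i - (w i + 1) * z) = 0 := by
      linear_combination y i * h4 - (w i + 1) * (z ^ 2 + t * z) * h5 -
        (w i + 1) * heq - (w i + 1) * hYz2
    rcases mul_eq_zero.1 h6 with h | h
    · exact absurd h (mul_ne_zero hY0 hz0)
    · exact sub_eq_zero.1 h
  have hYq : Y = ((∏ i, (w i + 1) ^ (w i + 1) : ℕ) : ℂ) * z ^ w0 := by
    rw [hY, hw0, Nat.cast_prod, ← Finset.prod_pow_eq_pow_sum, ← Finset.prod_mul_distrib]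
    refine Finset.prod_congr rfl fun i _ => ?_
    rw [hyz, mul_pow]
    push_cast
    rfl
  have hS : ∑ i, y i = w0 * z := by
    simp only [hyz]
    rw [← Finset.sum_mul, hw0]
    push_cast
    rfl
  have hnz : ‖z‖ ≤ 1 := by
    have h4 : ((∏ i, (w i + 1) ^ (w i + 1) : ℕ) : ℂ) * z ^ (w0 + 2) = 1 := by
      rw [pow_add, ← mul_assoc, ← hYq, hYz2]
    have h5 := congrArg norm h4
    rw [norm_mul, norm_pow, norm_one, Complex.norm_natCast] at h5
    have h6 : (1 : ℝ) ≤ ((∏ i, (w i + 1) ^ (w i + 1) : ℕ) : ℝ) := by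
      exact_mod_cast Finset.one_le_prod' fun i _ => Nat.one_le_pow _ _ (Nat.succ_pos _)
    by_contra hcon
    push Not at hcon
    have h7 : 1 < ‖z‖ ^ (w0 + 2) := one_lt_pow₀ hcon (by omega)
    nlinarith
  have hPhi : Φ = (w0 + 2) * z := by
    rw [ht, hS] at h1
    have h4 : Y * (2 * z + (w0 * z - Φ)) = 0 := by linear_combination h1
    rcases mul_eq_zero.1 h4 with h | h
    · exact absurd h hY0
    · linear_combination -h
  have hq2 : (w0 + 2 : ℂ) ≠ 0 := by
    exact_mod_cast (show w0 + 2 ≠ 0 by omega)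
  have hΦn : ‖Φ‖ ≤ w0 + 2 := by
    have h4 : ‖(w0 + 2 : ℂ)‖ = w0 + 2 := by
      have h5 : (w0 + 2 : ℂ) = ((w0 + 2 : ℝ) : ℂ) := by push_cast; ring
      rw [h5, Complex.norm_real, Real.norm_eq_abs, abs_of_pos (by positivity)]
    rw [hPhi, norm_mul, h4]
    calc ((w0 : ℝ) + 2) * ‖z‖ ≤ (w0 + 2) * 1 :=
          mul_le_mul_of_nonneg_left hnz (by positivity)
      _ = w0 + 2 := mul_one _
  have h5 := hnc x (by
    rw [← hΦdef, hPhi]
    exact mul_ne_zero hq2 hz0) (fun j => by
    have h4 := h3 j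
    rw [mul_eq_zero, or_iff_left hz0, mul_eq_zero, neg_eq_zero, or_iff_right hY0] at h4
    exact h4)
  rw [← hΦdef] at h5
  linarith

/-- the values of `Φ` at its critical points, in terms of lower bounds for the critical values of the
factors -/
theorem noncrit_of (hn : 0 < n) (σ : K →+* ℂ) {v : Fin n → ℝ} (hv0 : ∀ k, 0 ≤ v k)
    (hv : ∀ k c, (Polynomial.derivative (qq fun i => σ (a k i))).eval c = 0 →
      v k ≤ ‖(qq fun i => σ (a k i)).eval c‖) (x : Fin n → ℂ)
    (h0 : MvPolynomial.eval₂ σ x (mPhi lam a) ≠ 0)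
    (hcon : ∀ j, MvPolynomial.eval₂ σ x (MvPolynomial.pderiv j (mPhi lam a)) = 0) :
    ‖σ lam‖ * ∏ k, v k ≤ ‖MvPolynomial.eval₂ σ x (mPhi lam a)‖ := by
  have hmap : ∀ k, (qq (a k)).map σ = qq fun i => σ (a k i) := by
    intro k
    unfold qq
    rw [Polynomial.map_prod]
    refine Finset.prod_congr rfl fun i _ => ?_
    rw [Polynomial.map_sub, Polynomial.map_X, Polynomial.map_C]
  have hP : mPhi lam a = Pool.Agent.TH826.MH.eqn lam a + 1 := by
    unfold mPhi Pool.Agent.TH826.MH.eqn fl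
    rw [Fintype.prod_sigma]
    ring
  have hcon' : ∀ k, MvPolynomial.eval₂ σ x
      (MvPolynomial.pderiv k (Pool.Agent.TH826.MH.eqn lam a)) = 0 := by
    intro k
    have h3 := hcon k
    rw [hP, map_add, MvPolynomial.pderiv_one, add_zero] at h3
    exact h3
  have hval : MvPolynomial.eval₂ σ x (mPhi lam a) =
      σ lam * ∏ k, (qq (a k)).eval₂ σ (x k) := by
    rw [hP, eqn_eq lam a ⟨0, hn⟩, sub_add_cancel, MvPolynomial.eval₂_mul,
      MvPolynomial.eval₂_mul, MvPolynomial.eval₂_C, eval_aeval, MvPolynomial.eval₂_prod,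
      ← Finset.mul_prod_erase _ _ (Finset.mem_univ (⟨0, hn⟩ : Fin n))]
    simp only [eval_aeval]
  rw [hval] at h0
  have h3 : σ lam ≠ 0 ∧ ∏ k, (qq (a k)).eval₂ σ (x k) ≠ 0 := mul_ne_zero_iff.1 h0
  have hcrit : ∀ k, (Polynomial.derivative (qq (a k))).eval₂ σ (x k) = 0 := by
    intro k
    have h2 := hcon' k
    rw [pderiv_eqn, MvPolynomial.eval₂_mul, MvPolynomial.eval₂_mul, MvPolynomial.eval₂_C,
      eval_aeval, MvPolynomial.eval₂_prod] at h2
    simp only [eval_aeval] at h2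
    have h4 : ∏ l ∈ Finset.univ.erase k, (qq (a l)).eval₂ σ (x l) ≠ 0 :=
      Finset.prod_ne_zero_iff.2 fun l _ => (Finset.prod_ne_zero_iff.1 h3.2) l (Finset.mem_univ l)
    rcases mul_eq_zero.1 h2 with h5 | h5
    · exact absurd h5 h3.1
    · rcases mul_eq_zero.1 h5 with h6 | h6
      · exact h6
      · exact absurd h6 h4
  have hge : ∀ k, v k ≤ ‖(qq (a k)).eval₂ σ (x k)‖ := by
    intro k
    rw [← Polynomial.eval_map, hmap]
    refine hv k (x k) ?_
    rw [← hmap, Polynomial.derivative_map, Polynomial.eval_map]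
    exact hcrit k
  rw [hval, norm_mul, norm_prod]
  exact mul_le_mul_of_nonneg_left (Finset.prod_le_prod (fun k _ => hv0 k) fun k _ => hge k)
    (norm_nonneg _)

end smooth

end Pool.Agent.Run7.h363.BD
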