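import Pool.Agent.TH826.UM.Root
import Pool.Agent.TH826.UM.Val
set_option autoImplicit false

/-!
The branches of `y` in `∏ (y - β_j) = w` for separated `β_j`, two of which are at distance `D`:
they exist for `|w| ≤ D / 6`.
-/

namespace Pool.Agent.Run7.h363.BD

open Polynomial Metric

open Pool.Agent.TH826.UH

theorem exists_G {n : ℕ} {β : Fin (n + 1) → ℂ} (hβ : ∀ i j, i ≠ j → 3 ≤ ‖β i - β j‖) {B : ℝ}
    (hB0 : 0 < B) (hB : ∀ x : ℂ, (∀ i, 1 ≤ ‖x - β i‖) → B ≤ ∏ i, ‖x - β i‖)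
    (hB' : ∀ l (x : ℂ), ‖x - β l‖ ≤ 1 → B ≤ ∏ j ∈ Finset.univ.erase l, ‖x - β j‖) :
    ∃ G : Fin (n + 1) → ℂ → ℂ,
      (∀ l w, ‖w‖ ≤ B / 2 → AnalyticAt ℂ (G l) w) ∧
      (∀ l w, ‖w‖ ≤ B / 2 → ∏ j, (G l w - β j) = w) ∧
      (∀ j w, ‖w‖ ≤ B / 2 → ∏ l, (β j - G l w) = -w) ∧
      (∀ l w, ‖w‖ ≤ B / 2 → ‖G l w - β l‖ ≤ ‖w‖ / B) := by
  classical
  set c : ℂ := ((3 / B : ℝ) : ℂ) with hc
  have hcn : ‖c‖ = 3 / B := by
    rw [hc, Complex.norm_real, Real.norm_of_nonneg (by positivity)]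
  have hc0 : c ≠ 0 := by
    rw [← norm_pos_iff, hcn]
    positivity
  obtain ⟨η, H⟩ := sepd_fam (g := n) (b := β) (lam := c) (t := 0)
    (F := C 0 + C c * ∏ i, (X - C (β i))) hc0 rfl (ρ := 1) (B := B) one_pos
    (fun i j hij => by linarith [hβ i j hij]) (by simp) (fun x hx => hB x hx)
    (by rw [hcn, norm_zero, div_mul_cancel₀ _ hB0.ne']; norm_num)
  obtain ⟨y, han, hdisc, hprod, -⟩ := H.exists_branches
  have hlead := leadingCoeff_fam (g := n) (b := β) (lam := c) (t := 0)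
    (F := C 0 + C c * ∏ i, (X - C (β i))) hc0 rfl
  have hu : ∀ w : ℂ, ‖w‖ ≤ B / 2 → c * w ∈ ball (0 : ℂ) (2 + η) := by
    intro w hw
    rw [mem_ball_zero_iff, norm_mul, hcn]
    have h2 := H.eta
    have h3 : 3 / B * ‖w‖ ≤ 3 / B * (B / 2) := mul_le_mul_of_nonneg_left hw (by positivity)
    have h4 : 3 / B * (B / 2) = 3 / 2 := by field_simp
    linarith
  have hfac : ∀ (w : ℂ), ‖w‖ ≤ B / 2 → ∀ z : ℂ,
      ∏ j, (z - β j) - w = ∏ l, (z - y l (c * w)) := by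
    intro w hw z
    have h1 := congrArg (fun p => p.eval z) (hprod _ (hu w hw))
    rw [hlead] at h1
    simp only [eval_sub, eval_add, eval_mul, eval_C, eval_prod, eval_X, zero_add] at h1
    refine mul_left_cancel₀ hc0 ?_
    linear_combination h1
  have hval : ∀ l w, ‖w‖ ≤ B / 2 → ∏ j, (y l (c * w) - β j) = w := by
    intro l w hw
    have h1 := hfac w hw (y l (c * w))
    have h2 : ∏ l', (y l (c * w) - y l' (c * w)) = 0 :=
      Finset.prod_eq_zero (Finset.mem_univ l) (sub_self _)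
    rw [h2] at h1
    exact sub_eq_zero.1 h1
  refine ⟨fun l w => y l (c * w), fun l w hw => ?_, hval, fun j w hw => ?_, fun l w hw => ?_⟩
  · exact (han l _ (hu w hw)).fun_comp (by fun_prop)
  · rw [← hfac w hw (β j), Finset.prod_eq_zero (Finset.mem_univ j) (sub_self _), zero_sub]
  · have h1 := hval l w hw
    have h2 : ‖y l (c * w) - β l‖ * ∏ j ∈ Finset.univ.erase l, ‖y l (c * w) - β j‖ = ‖w‖ := by
      have h3 := congrArg norm h1
      rw [norm_prod, ← Finset.mul_prod_erase _ _ (Finset.mem_univ l)] at h3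
      exact h3
    have h4 := hB' l (y l (c * w)) (hdisc l _ (hu w hw)).le
    rw [le_div_iff₀ hB0, ← h2]
    exact mul_le_mul_of_nonneg_left h4 (norm_nonneg _)

section far

variable {n : ℕ} {β : Fin (n + 1) → ℂ}

/-- one of the two points `β x0`, `β y0` which is far from `β l` -/
noncomputable def cc (β : Fin (n + 1) → ℂ) (x0 y0 l : Fin (n + 1)) : Fin (n + 1) :=
  open Classical in if ‖β x0 - β y0‖ / 2 ≤ ‖β l - β x0‖ then x0 else y0

theorem cc_or (x0 y0 l : Fin (n + 1)) : cc β x0 y0 l = x0 ∨ cc β x0 y0 l = y0 := by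
  unfold cc
  split_ifs
  · exact Or.inl rfl
  · exact Or.inr rfl

theorem cc_far (x0 y0 l : Fin (n + 1)) : ‖β x0 - β y0‖ / 2 ≤ ‖β l - β (cc β x0 y0 l)‖ := by
  unfold cc
  split_ifs with h
  · exact h
  · have h1 : ‖β x0 - β y0‖ ≤ ‖β l - β x0‖ + ‖β l - β y0‖ := by
      have : β x0 - β y0 = (β l - β y0) - (β l - β x0) := by ring
      rw [this]
      refine (norm_sub_le _ _).trans ?_
      rw [add_comm]
    push Not at h
    linarith

variable (hβ : ∀ i j, i ≠ j → 3 ≤ ‖β i - β j‖) {x0 y0 : Fin (n + 1)} (hne : x0 ≠ y0)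
include hβ hne

theorem cc_zero : cc β x0 y0 x0 = y0 := by
  unfold cc
  rw [if_neg]
  rw [sub_self, norm_zero, not_le]
  linarith [hβ x0 y0 hne]

theorem cc_ne (l : Fin (n + 1)) : cc β x0 y0 l ≠ l := by
  intro h
  have h1 := cc_far (β := β) x0 y0 l
  rw [h, sub_self, norm_zero] at h1
  linarith [hβ x0 y0 hne]

theorem cc_log (l : Fin (n + 1)) : Real.log 3 + max 0 (Real.log (‖β x0 - β y0‖ / 6)) ≤
    Real.log ‖β l - β (cc β x0 y0 l)‖ := by
  have h1 := cc_far (β := β) x0 y0 l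
  have h2 := hβ l _ (cc_ne hβ hne l).symm
  have h3 := hβ x0 y0 hne
  rcases max_choice 0 (Real.log (‖β x0 - β y0‖ / 6)) with h | h
  · rw [h, add_zero]
    exact Real.log_le_log (by norm_num) h2
  · rw [h, ← Real.log_mul (by norm_num) (by positivity)]
    refine Real.log_le_log (by positivity) ?_
    linarith

theorem norm_sub_ge {l j : Fin (n + 1)} (hlj : j ≠ l) {x : ℂ} (hx : ‖x - β l‖ ≤ 1) :
    2 ≤ ‖x - β j‖ := by
  have h1 := hβ j l hlj
  have h2 : ‖β j - β l‖ ≤ ‖x - β l‖ + ‖x - β j‖ := by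
    have : β j - β l = (x - β l) - (x - β j) := by ring
    rw [this]
    exact norm_sub_le _ _
  linarith

/-- the product of the distances of a point near `β_l` from the other points -/
theorem prod_erase_ge (l : Fin (n + 1)) (x : ℂ) (hx : ‖x - β l‖ ≤ 1) :
    ‖β x0 - β y0‖ / 3 ≤ ∏ j ∈ Finset.univ.erase l, ‖x - β j‖ := by
  classical
  set j := cc β x0 y0 l with hj
  have hjl : j ≠ l := cc_ne hβ hne l
  have h1 := cc_far (β := β) x0 y0 l
  rw [← hj] at h1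
  have h2 : ‖β l - β j‖ ≤ ‖x - β l‖ + ‖x - β j‖ := by
    have : β l - β j = (x - β j) - (x - β l) := by ring
    rw [this]
    refine (norm_sub_le _ _).trans ?_
    rw [add_comm]
  have h3 := norm_sub_ge hβ hne hjl hx
  have h4 : ‖β x0 - β y0‖ / 3 ≤ ‖x - β j‖ := by
    rcases le_total ‖β x0 - β y0‖ 6 with h | h <;> linarith
  rw [← Finset.mul_prod_erase _ _ (Finset.mem_erase.2 ⟨hjl, Finset.mem_univ j⟩)]
  have h5 : 1 ≤ ∏ i ∈ (Finset.univ.erase l).erase j, ‖x - β i‖ :=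
    Finset.one_le_prod fun i hi => by
      linarith [norm_sub_ge hβ hne (Finset.ne_of_mem_erase (Finset.mem_of_mem_erase hi)) hx]
  calc ‖β x0 - β y0‖ / 3 ≤ ‖x - β j‖ * 1 := by rw [mul_one]; exact h4
    _ ≤ _ := mul_le_mul_of_nonneg_left h5 (norm_nonneg _)

omit hβ in
/-- the product of the distances of a point which is not near any of the points -/
theorem prod_ge (x : ℂ) (hx : ∀ i, 1 ≤ ‖x - β i‖) : ‖β x0 - β y0‖ / 3 ≤ ∏ i, ‖x - β i‖ := by
  classical
  have key : ∀ j, ‖β x0 - β y0‖ / 3 ≤ ‖x - β j‖ → ‖β x0 - β y0‖ / 3 ≤ ∏ i, ‖x - β i‖ := by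
    intro j hj
    rw [← Finset.mul_prod_erase _ _ (Finset.mem_univ j)]
    have h5 : 1 ≤ ∏ i ∈ Finset.univ.erase j, ‖x - β i‖ := Finset.one_le_prod fun i _ => hx i
    calc ‖β x0 - β y0‖ / 3 ≤ ‖x - β j‖ * 1 := by rw [mul_one]; exact hj
      _ ≤ _ := mul_le_mul_of_nonneg_left h5 (norm_nonneg _)
  have h1 : ‖β x0 - β y0‖ ≤ ‖x - β x0‖ + ‖x - β y0‖ := by
    have : β x0 - β y0 = (x - β y0) - (x - β x0) := by ring
    rw [this]
    refine (norm_sub_le _ _).trans ?_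
    rw [add_comm]
  have h0 := norm_nonneg (β x0 - β y0)
  rcases le_total ‖x - β x0‖ ‖x - β y0‖ with h | h
  · exact key y0 (by linarith)
  · exact key x0 (by linarith)

end far

end Pool.Agent.Run7.h363.BD
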