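import Pool.Agent.TH826.UM.Final
import Pool.Agent.Run7.h363.BD.Lap
import Pool.Agent.Run7.h363.BD.Root
set_option autoImplicit false

/-!
The regulator matrix of the hypersurface `μ ∏_k ∏_i (x_k - β_{k,i}) = 1` in terms of the Laplacians of
the complete graphs with the weights `log |β_{k,i} - β_{k,j}|`.
-/

namespace Pool.Agent.Run7.h363.BD

open MeasureTheory Set

open Pool.Agent.TH826.MK

open Pool.Agent.TH826.MH (good_w)

open Pool.Agent.TH826.UM (ff FF ww RR norm_ff_self one_ff norm_ld_ff good_FF per_ww pairing_ww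
  abs_pairing_log_le)

section lower

variable {d : ℕ} {s : Fin d → ℕ} {β : ∀ k : Fin d, Fin (s k + 1) → ℂ} {μ : ℂ} {B : Fin d → ℝ}

/-- lower bound for the product of the distances of the points near `β_l` from the others -/
def Low {n : ℕ} (β : Fin (n + 1) → ℂ) (B : ℝ) : Prop :=
  ∀ l (x : ℂ), ‖x - β l‖ ≤ 1 → B ≤ ∏ j ∈ Finset.univ.erase l, ‖x - β j‖

theorem norm_FF_ge (hB0 : ∀ k, 0 < B k) (hB : ∀ k, Low (β k) (B k)) (q : ∀ k, Fin (s k + 1))
    (θ : Fin d → ℝ) : ∏ k, B k ≤ ‖FF β q θ‖ := by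
  classical
  unfold FF
  rw [norm_prod]
  refine Finset.prod_le_prod (fun k _ => (hB0 k).le) fun k _ => ?_
  rw [norm_prod, ← Finset.mul_prod_erase _ _ (Finset.mem_univ (q k)), norm_ff_self, one_mul]
  have h1 := hB k (q k) (circ 1 (θ k) + β k (q k)) (by
    rw [add_sub_cancel_right, norm_circ (by norm_num)])
  refine h1.trans (le_of_eq (Finset.prod_congr rfl fun i _ => ?_))
  unfold ff
  congr 1
  ring

theorem norm_ww_le (hB0 : ∀ k, 0 < B k) (hB : ∀ k, Low (β k) (B k)) (hμ : μ ≠ 0) {B0 η : ℝ}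
    (hη : η ≤ ‖μ‖ * (B0 * ∏ k, B k)) (hη0 : 0 < η) (q : ∀ k, Fin (s k + 1))
    (θ : Fin d → ℝ) : ‖ww μ β q θ‖ ≤ B0 / η := by
  have h1 := norm_FF_ge hB0 hB q θ
  have h0 : 0 < ∏ k, B k := Finset.prod_pos fun k _ => hB0 k
  have hμ' : 0 < ‖μ‖ := norm_pos_iff.2 hμ
  unfold ww
  rw [norm_inv, norm_mul, inv_eq_one_div, div_le_div_iff₀ (mul_pos hμ' (h0.trans_le h1)) hη0,
    one_mul]
  have hB00 : 0 ≤ B0 := by
    by_contra h
    push Not at h
    have : ‖μ‖ * (B0 * ∏ k, B k) ≤ 0 := by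
      have h2 : B0 * ∏ k, B k ≤ 0 := mul_nonpos_of_nonpos_of_nonneg h.le h0.le
      exact mul_nonpos_of_nonneg_of_nonpos hμ'.le h2
    linarith
  calc η ≤ ‖μ‖ * (B0 * ∏ k, B k) := hη
    _ = B0 * (‖μ‖ * ∏ k, B k) := by ring
    _ ≤ B0 * (‖μ‖ * ‖FF β q θ‖) :=
        mul_le_mul_of_nonneg_left (mul_le_mul_of_nonneg_left h1 hμ'.le) hB00

end lower

section matrix

variable {d m : ℕ} {s : Fin d → ℕ} {β : ∀ k : Fin d, Fin (s k + 1) → ℂ} {μ : ℂ}
  {β0 : Fin (m + 1) → ℂ} {G : Fin (m + 1) → ℂ → ℂ} {B : Fin d → ℝ} {B0 η : ℝ}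

/-- the Laplacian of the complete graph with the weights `log |β_i - β_j|` -/
noncomputable def LL {n : ℕ} (β : Fin n → ℂ) (x y : Fin n) : ℝ :=
  (if x = y then ∑ i, Real.log ‖β i - β x‖ else 0) - Real.log ‖β y - β x‖

/-- the main term -/
theorem near_main (hd : 0 < d) (hβ0 : ∀ i j, i ≠ j → 3 ≤ ‖β0 i - β0 j‖)
    (hβ : ∀ k i j, i ≠ j → 3 ≤ ‖β k i - β k j‖) (hB0 : ∀ k, 0 < B k)
    (hB : ∀ k, Low (β k) (B k)) (hB00 : 0 < B0) (hμ0 : μ ≠ 0)
    (hη : η ≤ ‖μ‖ * (B0 * ∏ k, B k)) (hη2 : 2 ≤ η)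
    (hG1 : ∀ l w, ‖w‖ ≤ B0 / 2 → AnalyticAt ℂ (G l) w)
    (hG2 : ∀ l w, ‖w‖ ≤ B0 / 2 → ∏ j, (G l w - β0 j) = w)
    (hG4 : ∀ l w, ‖w‖ ≤ B0 / 2 → ‖G l w - β0 l‖ ≤ ‖w‖ / B0)
    (p0 q0 : Fin (m + 1)) (p q : ∀ k, Fin (s k + 1)) :
    |RR β0 β μ G (p0, p) (q0, q) - ((if p0 = q0 then
        -pairing (Fin.cons (ww μ β q) (vf fun k => ff β q k (p k))) else 0) +
      (2 * Real.pi) ^ d * ((∏ k, if p k = q k then (1 : ℝ) else 0) * LL β0 p0 q0))| ≤
      (m + 1) * ((2 * Real.pi) ^ d / (2 * η)) := by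
  classical
  have hpi := Real.pi_pos
  have hηpos : 0 < η := by linarith
  have hwη : ∀ q θ, ‖ww μ β q θ‖ ≤ B0 / η := norm_ww_le hB0 hB hμ0 hη hηpos
  have hw : ∀ q θ, ‖ww μ β q θ‖ ≤ B0 / 2 := fun q θ =>
    (hwη q θ).trans (div_le_div_of_nonneg_left hB00.le (by norm_num) hη2)
  have gw : ∀ q, Good (ww μ β q) := fun q => good_w (good_FF hβ q) hμ0
  have hYcd : ∀ l q, ContDiff ℝ 2 fun θ => G l (ww μ β q θ) := by
    intro l q
    rw [contDiff_iff_contDiffAt]
    intro θ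
    exact ((hG1 l _ (hw q θ)).contDiffAt.restrict_scalars ℝ).comp θ
      (gw q).smooth.contDiffAt
  have hYne : ∀ l q j θ, G l (ww μ β q θ) - β0 j ≠ 0 := by
    intro l q j θ h
    have h1 := hG2 l _ (hw q θ)
    rw [Finset.prod_eq_zero (Finset.mem_univ j) h] at h1
    exact (gw q).ne_zero θ h1.symm
  have gY : ∀ l q j, Good fun θ => G l (ww μ β q θ) - β0 j := fun l q j =>
    ⟨(hYcd l q).sub contDiff_const, hYne l q j⟩
  have hV : ∀ (q p : ∀ k, Fin (s k + 1)) k, One (ff β q k (p k)) (if p k = q k then 1 else 0) :=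
    fun q p k => one_ff hβ q k (p k)
  have gV : ∀ (q p : ∀ k, Fin (s k + 1)) k, Good (vf (fun k => ff β q k (p k)) k) :=
    fun q p k => (hV q p k).good k
  have sum2 : ∀ (q0 : Fin (m + 1)) (p q : ∀ k, Fin (s k + 1)),
      ∑ p0, RR β0 β μ G (p0, p) (q0, q) =
        -pairing (Fin.cons (ww μ β q) (vf fun k => ff β q k (p k))) := by
    intro q0 p q
    unfold RR
    simp only
    rw [Finset.sum_neg_distrib]
    congr 1
    rw [← pairing_prod Finset.univ (fun p0 => gY q0 q p0) (hV q p)]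
    congr 2
    funext θ
    exact hG2 q0 _ (hw q θ)
  set E : ℝ := (2 * Real.pi) ^ d / (2 * η) with hE
  have hE0 : 0 ≤ E := by positivity
  have hfar : ∀ (p0 q0 : Fin (m + 1)) (p q : ∀ k, Fin (s k + 1)), q0 ≠ p0 →
      |RR β0 β μ G (p0, p) (q0, q) + (2 * Real.pi) ^ d * Real.log ‖β0 q0 - β0 p0‖ *
        ∏ k, (if p k = q k then (1 : ℝ) else 0)| ≤ E := by
    intro p0 q0 p q h
    have hd3 := hβ0 q0 p0 h
    set c : ℂ := β0 q0 - β0 p0 with hc
    have hc0 : c ≠ 0 := by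
      rw [← norm_pos_iff]
      linarith
    set Z : (Fin d → ℝ) → ℂ := fun θ => (G q0 (ww μ β q θ) - β0 q0) / c with hZ
    have hZb : ∀ θ, ‖Z θ‖ ≤ 1 / η / 3 := by
      intro θ
      simp only [hZ]
      rw [norm_div]
      refine div_le_div₀ (by positivity) ?_ (by norm_num) hd3
      refine (hG4 q0 _ (hw q θ)).trans ?_
      rw [div_le_div_iff₀ hB00 hηpos, one_mul]
      have := hwη q θ
      rwa [le_div_iff₀ hηpos] at this
    have hη1 : 1 / η ≤ 1 / 2 := one_div_le_one_div_of_le (by norm_num) hη2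
    have hZ1 : ∀ θ, ‖Z θ‖ < 1 := fun θ => (hZb θ).trans_lt (by linarith)
    have hsl : ∀ θ, 1 + Z θ ∈ Complex.slitPlane := fun θ =>
      Complex.mem_slitPlane_of_norm_lt_one (hZ1 θ)
    have hZcd : ContDiff ℝ 2 fun θ => 1 + Z θ :=
      contDiff_const.add (((hYcd q0 q).sub contDiff_const).div_const c)
    have gZ : Good fun θ => 1 + Z θ := ⟨hZcd, fun θ => Complex.slitPlane_ne_zero (hsl θ)⟩
    have hper : Per fun θ => 1 + Z θ := by
      intro θ i
      simp only [hZ]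
      rw [per_ww hβ q θ i]
    have e1 : (fun θ => G q0 (ww μ β q θ) - β0 p0) = fun θ => c * (1 + Z θ) := by
      funext θ
      simp only [hZ]
      field_simp
      rw [hc]
      ring
    have h1 := abs_pairing_log_le hd hZcd hper hsl (hV q p) (A := 1 / (2 * η))
      (C := 2 * Real.pi) (fun θ => by
        have h3 := Complex.norm_log_one_add_half_le_self (z := Z θ)
          ((hZb θ).trans (by linarith))
        calc _ ≤ 3 / 2 * ‖Z θ‖ := h3
          _ ≤ 3 / 2 * (1 / η / 3) := mul_le_mul_of_nonneg_left (hZb θ) (by norm_num)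
          _ = 1 / (2 * η) := by field_simp) (fun k t => norm_ld_ff hβ q k (p k) t)
    have h2 : RR β0 β μ G (p0, p) (q0, q) + (2 * Real.pi) ^ d * Real.log ‖c‖ *
        ∏ k, (if p k = q k then (1 : ℝ) else 0) =
        -pairing (Fin.cons (fun θ => 1 + Z θ) (vf fun k => ff β q k (p k))) := by
      unfold RR
      simp only
      rw [e1, pairing_cons_mul (good_const hc0) gZ (gV q p), pairing_const _ _ _ (hV q p)]
      ring
    rw [h2, abs_neg, hE]
    refine h1.trans (le_of_eq ?_)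
    ring
  by_cases h : p0 = q0
  · subst h
    rw [if_pos rfl, ← sum2 p0 p q]
    have h1 : RR β0 β μ G (p0, p) (p0, q) - (∑ j, RR β0 β μ G (j, p) (p0, q) +
        (2 * Real.pi) ^ d * ((∏ k, if p k = q k then (1 : ℝ) else 0) * LL β0 p0 p0)) =
        -∑ j ∈ Finset.univ.erase p0, (RR β0 β μ G (j, p) (p0, q) +
          (2 * Real.pi) ^ d * Real.log ‖β0 p0 - β0 j‖ *
          ∏ k, (if p k = q k then (1 : ℝ) else 0)) := by
      unfold LL
      rw [if_pos rfl, sub_self, norm_zero, Real.log_zero, sub_zero,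
        ← Finset.add_sum_erase _ _ (Finset.mem_univ p0),
        ← Finset.add_sum_erase _ (fun i => Real.log ‖β0 i - β0 p0‖) (Finset.mem_univ p0),
        Finset.sum_add_distrib, sub_self, norm_zero, Real.log_zero, zero_add,
        ← Finset.sum_mul, ← Finset.mul_sum]
      have h2 : ∀ i, Real.log ‖β0 i - β0 p0‖ = Real.log ‖β0 p0 - β0 i‖ := fun i => by
        rw [norm_sub_rev]
      simp only [h2]
      ring
    rw [h1, abs_neg]
    refine (Finset.abs_sum_le_sum_abs _ _).trans ?_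
    calc ∑ j ∈ Finset.univ.erase p0, |RR β0 β μ G (j, p) (p0, q) +
          (2 * Real.pi) ^ d * Real.log ‖β0 p0 - β0 j‖ *
          ∏ k, (if p k = q k then (1 : ℝ) else 0)| ≤ ∑ _j ∈ Finset.univ.erase p0, E :=
          Finset.sum_le_sum fun j hj => hfar j p0 p q (Finset.ne_of_mem_erase hj).symm
      _ = m * E := by
          rw [Finset.sum_const, Finset.card_erase_of_mem (Finset.mem_univ p0), Finset.card_univ,
            Fintype.card_fin, nsmul_eq_mul, Nat.add_sub_cancel]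
      _ ≤ (m + 1) * E := by linarith
  · rw [if_neg h, zero_add]
    have h1 := hfar p0 q0 p q (Ne.symm h)
    have h2 : RR β0 β μ G (p0, p) (q0, q) -
        (2 * Real.pi) ^ d * ((∏ k, if p k = q k then (1 : ℝ) else 0) * LL β0 p0 q0) =
        RR β0 β μ G (p0, p) (q0, q) + (2 * Real.pi) ^ d * Real.log ‖β0 q0 - β0 p0‖ *
        ∏ k, (if p k = q k then (1 : ℝ) else 0) := by
      unfold LL
      rw [if_neg h]
      ring
    rw [h2]
    refine h1.trans ?_
    have h3 : (0 : ℝ) ≤ m := Nat.cast_nonneg m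
    nlinarith

end matrix

section erase

variable {n : ℕ} {r : Fin (n + 1) → ℕ}

theorem prod_erase_zero (f : Fin (n + 1) → ℝ) :
    ∏ l ∈ Finset.univ.erase (0 : Fin (n + 1)), f l = ∏ l : Fin n, f l.succ := by
  classical
  have h : (Finset.univ.erase (0 : Fin (n + 1))) = Finset.univ.map (Fin.succEmb n) := by
    ext l
    simp only [Finset.mem_erase, Finset.mem_univ, and_true, Finset.mem_map, true_and]
    constructor
    · intro hl
      obtain ⟨l', rfl⟩ := Fin.exists_succ_eq.2 hl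
      exact ⟨l', rfl⟩
    · rintro ⟨l', rfl⟩
      exact Fin.succ_ne_zero l'
  rw [h, Finset.prod_map]
  rfl

theorem prod_erase_succ (f : Fin (n + 1) → ℝ) (k : Fin n) :
    ∏ l ∈ Finset.univ.erase k.succ, f l = f 0 * ∏ l ∈ Finset.univ.erase k, f l.succ := by
  classical
  have h1 : ∀ {m : ℕ} (g : Fin m → ℝ) (a : Fin m), ∏ l ∈ Finset.univ.erase a, g l =
      ∏ l, if l = a then 1 else g l := by
    intro m g a
    rw [← Finset.mul_prod_erase Finset.univ _ (Finset.mem_univ a), if_pos rfl, one_mul]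
    exact Finset.prod_congr rfl fun l hl => (if_neg (Finset.ne_of_mem_erase hl)).symm
  rw [h1, h1, Fin.prod_univ_succ, if_neg (Fin.succ_ne_zero k).symm]
  congr 1
  refine Finset.prod_congr rfl fun l _ => ?_
  by_cases h : l = k
  · rw [if_pos h, if_pos (by rw [h])]
  · rw [if_neg h, if_neg (fun h' => h (Fin.succ_injective _ h'))]

end erase

end Pool.Agent.Run7.h363.BD
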